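import Pool.Agent.Lib.MP_162bbe_gt.Ad.Defs

/-! Tits algebras of arithmetic subgroups. -/

namespace Pool.Agent.Lib.MP_162bbe_gt.Ti

open Module Pool.Agent.Lib.MP_162bbe_gt.Ad

/-- The `ν j` are faithful representations of `V` whose classes are fixed by `G`, and each nonzero
`X ∈ h` with `ad X` diagonalisable with real eigenvalues has a positive eigenvalue whose total
multiplicity `c` in `ν 1, …, ν s` satisfies: `s * d` does not divide `2 * c`. -/
structure Wts {V G : Type} [LieRing V] [LieAlgebra ℂ V] [Group G] {n s : ℕ} (h : Submodule ℝ V)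
    (π : G →* End ℂ V) (ν : Fin s → V →ₗ[ℂ] Matrix (Fin n) (Fin n) ℂ) (d : ℕ) : Prop where
  lie : ∀ j X Y, ν j ⁅X, Y⁆ = ν j X * ν j Y - ν j Y * ν j X
  inj : ∀ j, Function.Injective (ν j)
  stab : ∀ j a, ∃ t, IsUnit t ∧ ∀ Y, t * ν j Y = ν j (π a Y) * t
  mult : ∀ X ∈ h, X ≠ 0 → ⨆ μ : ℝ, End.eigenspace (LieAlgebra.ad ℂ V X) μ = ⊤ →
    ∃ μ : ℝ, 0 < μ ∧ ¬ s * d ∣ 2 * ∑ j, (ν j X).charpoly.rootMultiplicity (μ : ℂ)

variable {r n s : ℕ} {g : Fin r → Type} [∀ i, LieRing (g i)] [∀ i, LieAlgebra ℂ (g i)]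
  {G : Type} [Group G]

/-- `L` generates the central simple algebra `M_m(D)` of index `d` and degree `n` over the extension
`K` of degree `s` of `k`; the embeddings of `K` that extend `σ i` give the representations
`ν i j`. -/
structure Tits {h : ∀ i, Submodule ℝ (g i)} {π : ∀ i, G →* End ℂ (g i)} {Γ : Subgroup G}
    {k L : Type} [Field k] [LieRing L] [LieAlgebra k L] (X : Arith h π Γ k L)
    (ν : ∀ i, Fin s → g i →ₗ[ℂ] Matrix (Fin n) (Fin n) ℂ) (d : ℕ) (K D : Type) [Field K]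
    [Algebra k K] [DivisionRing D] [Algebra K D] where
  m : ℕ
  ψ : L →ₛₗ[algebraMap k K] Matrix (Fin m) (Fin m) D
  ρ : (K →+* ℂ) → Matrix (Fin m) (Fin m) D →+* Matrix (Fin n) (Fin n) ℂ
  τ : Fin r → Fin s → K →+* ℂ
  central : Algebra.IsCentral K D
  dim : finrank K D = d ^ 2
  deg : m * d = n
  ext : finrank k K = s
  gen : Algebra.adjoin K (Set.range ψ) = ⊤
  split : ∀ t c, ρ t (algebraMap K _ c) = Matrix.scalar (Fin n) (t c)
  inj : ∀ i, Function.Injective (τ i)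
  res : ∀ i j, (τ i j).comp (algebraMap k K) = X.σ i
  app : ∀ i j x, ρ (τ i j) (ψ x) = ν i j (X.φ i x)

/-- `Γ` is arithmetic, with a Tits algebra of index `d` for the representations `ν i j`. -/
def TitsArith (h : ∀ i, Submodule ℝ (g i)) (π : ∀ i, G →* End ℂ (g i))
    (ν : ∀ i, Fin s → g i →ₗ[ℂ] Matrix (Fin n) (Fin n) ℂ) (d : ℕ) (Γ : Subgroup G) : Prop :=
  ∃ (k L K D : Type) (_ : Field k) (_ : NumberField k) (_ : LieRing L) (_ : LieAlgebra k L)
    (_ : Field K) (_ : NumberField K) (_ : Algebra k K) (_ : DivisionRing D) (_ : Algebra K D)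
    (X : Arith h π Γ k L), Nonempty (Tits X ν d K D)

end Pool.Agent.Lib.MP_162bbe_gt.Ti
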