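import Pool.Agent.Lib.MP_162bbe_gt.Ti.Defs

/-! The weight condition for `sl n`, `n` odd, with the standard representation and its dual. -/

namespace Pool.Agent.Lib.MP_162bbe_gt.Ti

open Module Polynomial LieAlgebra NormedSpace Pool.Agent.Lib.MP_162bbe_gt.Ad

open scoped Matrix.Norms.Operator in
theorem exa_exp {V : Type} [LieRing V] [LieAlgebra ℂ V] [Module.Finite ℂ V] {n : ℕ}
    (ν : V →ₗ[ℂ] Matrix (Fin n) (Fin n) ℂ) (lie : ∀ X Y, ν ⁅X, Y⁆ = ν X * ν Y - ν Y * ν X)
    {f : End ℂ V} {X : V} (hf : mat f = exp (mat (ad ℂ V X))) (Y : V) :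
    exp (ν X) * ν Y = ν (f Y) * exp (ν X) := by
  let b := finBasis ℂ V
  let N : Matrix (Fin (finrank ℂ V)) (Fin (finrank ℂ V)) ℂ →L[ℂ] Matrix (Fin n) (Fin n) ℂ :=
    LinearMap.toContinuousLinearMap
      (ν ∘ₗ LinearMap.applyₗ Y ∘ₗ (Matrix.toLin b b).toLinearMap)
  have hN : ∀ M, N M = ν (Matrix.toLin b b M Y) := fun _ => rfl
  have h1 : ∀ M, N (mat (ad ℂ V X) * M) = ν X * N M - N M * ν X := fun M => by
    rw [hN, hN, Matrix.toLin_mul b b b, mat, Matrix.toLin_toMatrix, LinearMap.comp_apply,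
      ad_apply, lie]
  have h2 : ∀ t : ℂ, HasDerivAt
      (fun t : ℂ => exp (t • -ν X) * N (exp (t • mat (ad ℂ V X))) * exp (t • ν X)) 0 t := fun t => by
    have h3 := ((hasDerivAt_exp_smul_const (-ν X) t).mul
      (N.hasFDerivAt.comp_hasDerivAt t (hasDerivAt_exp_smul_const' (mat (ad ℂ V X)) t))).mul
      (hasDerivAt_exp_smul_const' (ν X) t)
    refine h3.congr_deriv ?_
    change (exp (t • -ν X) * -ν X * N (exp (t • mat (ad ℂ V X))) +
      exp (t • -ν X) * N (mat (ad ℂ V X) * exp (t • mat (ad ℂ V X)))) * exp (t • ν X) +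
      exp (t • -ν X) * N (exp (t • mat (ad ℂ V X))) * (ν X * exp (t • ν X)) = 0
    rw [h1]
    noncomm_ring
  have h3 := is_const_of_deriv_eq_zero (fun t => (h2 t).differentiableAt) (fun t => (h2 t).deriv) 1 0
  simp only [one_smul, zero_smul, exp_zero, one_mul, mul_one] at h3
  rw [← hf, hN, hN, mat, Matrix.toLin_toMatrix, Matrix.toLin_one, LinearMap.id_apply] at h3
  rw [← h3, ← mul_assoc, ← mul_assoc, ← Matrix.exp_add_of_commute _ _ (Commute.refl (ν X)).neg_right,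
    add_neg_cancel, exp_zero, one_mul]

variable {n s : ℕ} {G : Type} [Group G]

theorem stab_of_exp {V : Type} [LieRing V] [LieAlgebra ℂ V] [Module.Finite ℂ V]
    {π : G →* End ℂ V} {ν : Fin s → V →ₗ[ℂ] Matrix (Fin n) (Fin n) ℂ}
    (lie : ∀ j X Y, ν j ⁅X, Y⁆ = ν j X * ν j Y - ν j Y * ν j X)
    (hG : Subgroup.closure {a | ∃ X : V, mat (π a) = exp (mat (ad ℂ V X))} = ⊤) (j : Fin s)
    (a : G) : ∃ t, IsUnit t ∧ ∀ Y, t * ν j Y = ν j (π a Y) * t := by
  have ha : a ∈ Subgroup.closure _ := hG ▸ Subgroup.mem_top a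
  induction ha using Subgroup.closure_induction with
  | mem a ha =>
    obtain ⟨X, hX⟩ := ha
    exact ⟨_, Matrix.isUnit_exp _, exa_exp (ν j) (lie j) hX⟩
  | one => exact ⟨1, isUnit_one, fun Y => by simp⟩
  | mul a b _ _ ha hb =>
    obtain ⟨t, ht, ha⟩ := ha
    obtain ⟨u, hu, hb⟩ := hb
    exact ⟨t * u, ht.mul hu, fun Y => by
      rw [mul_assoc, hb, ← mul_assoc, ha, map_mul, End.mul_apply, mul_assoc]⟩
  | inv a _ ha =>
    obtain ⟨_, ⟨t, rfl⟩, ha⟩ := ha
    refine ⟨↑t⁻¹, Units.isUnit _, fun Y => ?_⟩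
    rw [Units.inv_mul_eq_iff_eq_mul, ← mul_assoc, ha, ← End.mul_apply, ← map_mul, mul_inv_cancel,
      map_one, End.one_apply, Units.mul_inv_cancel_right]

theorem exa_vec {A : Matrix (Fin n) (Fin n) ℂ} {z : ℂ} (hz : z ∈ A.charpoly.roots) :
    ∃ v, v ≠ 0 ∧ A.mulVec v = z • v := by
  rw [mem_roots A.charpoly_monic.ne_zero, ← Matrix.charpoly_toLin',
    ← End.hasEigenvalue_iff_isRoot_charpoly] at hz
  obtain ⟨v, hv⟩ := hz.exists_hasEigenvector
  exact ⟨v, hv.2, hv.apply_eq_smul⟩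

theorem exa_neg (A : Matrix (Fin n) (Fin n) ℂ) :
    (-A.transpose).charpoly.roots = A.charpoly.roots.map fun z => -z := by
  have h1 : (-A.transpose).charpoly = C ((-1) ^ n) * A.charpoly.comp (-X) := by
    refine Polynomial.funext fun z => ?_
    rw [← Matrix.transpose_neg, Matrix.charpoly_transpose, eval_mul, eval_C, eval_comp, eval_neg,
      eval_X, Matrix.eval_charpoly, Matrix.eval_charpoly, map_neg, ← neg_add', Matrix.det_neg,
      sub_neg_eq_add, Fintype.card_fin, ← mul_assoc, ← mul_pow]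
    simp
  rw [h1, roots_C_mul _ (by simp), roots_comp_neg_X]

attribute [local instance 100] LieRing.ofAssociativeRing

open SpecialLinear

/-- The standard representation of `sl n` and its dual. -/
noncomputable def nuA (n : ℕ) : Fin 2 → sl (Fin n) ℂ →ₗ[ℂ] Matrix (Fin n) (Fin n) ℂ :=
  ![(sl (Fin n) ℂ).toSubmodule.subtype,
    -(Matrix.transposeLinearEquiv _ _ ℂ ℂ).toLinearMap ∘ₗ (sl (Fin n) ℂ).toSubmodule.subtype]

theorem exa_real {A : sl (Fin n) ℂ}
    (h : ⨆ μ : ℝ, End.eigenspace (ad ℂ (sl (Fin n) ℂ) A) μ = ⊤) {z w : ℂ}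
    (hz : z ∈ A.1.charpoly.roots) (hw : w ∈ A.1.charpoly.roots) : (z - w).im = 0 := by
  by_contra h0
  obtain ⟨v, v0, hv⟩ := exa_vec hz
  obtain ⟨u, u0, hu⟩ := exa_vec (A.1.charpoly_transpose ▸ hw : w ∈ A.1.transpose.charpoly.roots)
  rw [Matrix.mulVec_transpose] at hu
  have h1 : dotProduct u v = 0 := by
    have h2 := Matrix.dotProduct_mulVec u A.1 v
    rw [hv, hu, dotProduct_smul, smul_dotProduct, ← sub_eq_zero, ← sub_smul, smul_eq_zero] at h2
    exact h2.resolve_left fun e => h0 (by rw [e, Complex.zero_im])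
  let Y : sl (Fin n) ℂ := ⟨Matrix.vecMulVec v u, by
    change (Matrix.vecMulVec v u).trace = 0
    rw [Matrix.trace_vecMulVec, dotProduct_comm, h1]⟩
  have h2 : Y ∈ End.eigenspace (ad ℂ (sl (Fin n) ℂ) A) (z - w) := by
    refine End.mem_eigenspace_iff.2 (Subtype.ext ?_)
    change A.1 * Matrix.vecMulVec v u - Matrix.vecMulVec v u * A.1 = (z - w) • Matrix.vecMulVec v u
    rw [Matrix.mul_vecMulVec, Matrix.vecMulVec_mul, hv, hu, Matrix.smul_vecMulVec,
      Matrix.vecMulVec_smul, sub_smul]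
  have h3 := Submodule.disjoint_def.1
    ((End.eigenspaces_iSupIndep (ad ℂ (sl (Fin n) ℂ) A)).disjoint_biSup
      (y := Set.range ((↑) : ℝ → ℂ)) (x := z - w) fun ⟨x, hx⟩ => h0 (by rw [← hx, Complex.ofReal_im]))
    Y h2 (by rw [iSup_range, h]; trivial)
  exact Matrix.vecMulVec_ne_zero v0 u0 (congrArg Subtype.val h3)

theorem exa_zero (hn : n ≠ 0) {A : sl (Fin n) ℂ}
    (h : ⨆ μ : ℝ, End.eigenspace (ad ℂ (sl (Fin n) ℂ) A) μ = ⊤)
    (h0 : ∀ z ∈ A.1.charpoly.roots, z = 0) : A = 0 := by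
  have h1 : IsNilpotent A.1 := by
    rw [← Matrix.isNilpotent_toLin'_iff, LinearMap.isNilpotent_iff_charpoly, Matrix.charpoly_toLin',
      (IsAlgClosed.splits _).eq_prod_roots_of_monic A.1.charpoly_monic,
      Multiset.eq_replicate_card.2 h0, ← (IsAlgClosed.splits _).natDegree_eq_card_roots]
    simp
  obtain ⟨N, h2⟩ := isNilpotent_ad_of_isNilpotent (R := ℂ) h1
  have h3 : ∀ Y : sl (Fin n) ℂ, ⁅A, Y⁆ = 0 := fun Y => by
    have hY : Y ∈ ⨆ μ : ℝ, End.eigenspace (ad ℂ (sl (Fin n) ℂ) A) μ := h ▸ Submodule.mem_top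
    induction hY using Submodule.iSup_induction' with
    | zero => simp
    | add x y _ _ hx hy => rw [lie_add, hx, hy, add_zero]
    | mem μ Y hY =>
      by_cases e : Y = 0
      · simp [e]
      have h4 := End.mem_eigenspace_iff.1 hY
      have h5 := End.HasEigenvector.pow_apply ⟨hY, e⟩ N
      rw [h2, LinearMap.zero_apply, eq_comm, smul_eq_zero, or_iff_left e] at h5
      rwa [eq_zero_of_pow_eq_zero h5, zero_smul] at h4
  obtain ⟨c, hc⟩ : A.1 ∈ Set.range (Matrix.scalar (Fin n)) := by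
    refine Matrix.mem_range_scalar_of_commute_single fun i j hij => ?_
    exact (sub_eq_zero.1 (congrArg Subtype.val (h3 (single i j hij 1)))).symm
  have h4 : Matrix.trace A.1 = 0 := A.2
  refine Subtype.ext ?_
  rw [← hc] at h4 ⊢
  simp [show c = 0 by simpa [hn] using h4]

theorem exa_mult (hn : Odd n) {A : sl (Fin n) ℂ} (h0 : A ≠ 0)
    (h : ⨆ μ : ℝ, End.eigenspace (ad ℂ (sl (Fin n) ℂ) A) μ = ⊤) :
    ∃ μ : ℝ, 0 < μ ∧ ¬ 2 * n ∣ 2 * ∑ j, (nuA n j A).charpoly.rootMultiplicity (μ : ℂ) := by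
  classical
  have n0 : n ≠ 0 := hn.pos.ne'
  set R := A.1.charpoly.roots with hR
  have hc : R.card = n := by
    rw [hR, ← (IsAlgClosed.splits _).natDegree_eq_card_roots, Matrix.charpoly_natDegree_eq_dim,
      Fintype.card_fin]
  have hs : R.sum = 0 := A.1.trace_eq_sum_roots_charpoly.symm.trans A.2
  obtain ⟨z, hz, z0⟩ : ∃ z ∈ R, z ≠ 0 := by
    by_contra! h1
    exact h0 (exa_zero n0 h h1)
  have h1 : z.im = 0 := by
    have h2 : ((R.map fun w => z - w).sum).im = 0 := by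
      rw [← Complex.imCLM_apply, map_multiset_sum]
      exact Multiset.sum_eq_zero (Multiset.forall_mem_map_iff.2
        (Multiset.forall_mem_map_iff.2 fun w hw => exa_real h hz hw))
    rw [Multiset.sum_map_sub, Multiset.map_id', hs, Multiset.map_const', Multiset.sum_replicate,
      hc] at h2
    simpa [n0] using h2
  obtain ⟨x, rfl⟩ : ∃ x : ℝ, (x : ℂ) = z := ⟨z.re, Complex.ext rfl h1.symm⟩
  have x0 : x ≠ 0 := by simpa using z0
  have h2 : ∀ y : ℂ, ∑ j, (nuA n j A).charpoly.rootMultiplicity y = R.count y + R.count (-y) :=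
    fun y => by
      rw [Fin.sum_univ_two, ← count_roots, ← count_roots]
      change R.count y + (-A.1.transpose).charpoly.roots.count y = _
      rw [exa_neg, ← Multiset.count_map_eq_count' _ R neg_injective (-y), neg_neg]
  have h3 : ∑ j, (nuA n j A).charpoly.rootMultiplicity ((|x| : ℝ) : ℂ) =
      R.count (x : ℂ) + R.count (-(x : ℂ)) := by
    rcases abs_choice x with e | e <;> simp [h2, e, add_comm]
  refine ⟨|x|, abs_pos.2 x0, fun h4 => ?_⟩
  have h5 : (x : ℂ) ≠ -x := fun e => z0 (by linear_combination e / 2)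
  have h6 : Multiset.replicate (R.count (x : ℂ)) (x : ℂ) +
      Multiset.replicate (R.count (-(x : ℂ))) (-(x : ℂ)) ≤ R := Multiset.le_iff_count.2 fun y => by
    rw [Multiset.count_add, Multiset.count_replicate, Multiset.count_replicate]
    split_ifs with e e' e'
    · exact absurd (e.trans e'.symm) h5
    · simp [e]
    · simp [e']
    · simp
  have h7 := Nat.le_of_dvd (Nat.add_pos_left (Multiset.count_pos.2 hz) _)
    (h3 ▸ Nat.dvd_of_mul_dvd_mul_left two_pos h4)
  have h8 := Multiset.eq_of_le_of_card_le h6 (by simpa [hc] using h7)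
  have h9 := congrArg Multiset.sum h8
  have h10 := congrArg Multiset.card h8
  simp only [Multiset.sum_add, Multiset.sum_replicate, hs, smul_neg, ← sub_eq_add_neg, nsmul_eq_mul,
    ← sub_mul, mul_eq_zero, z0, or_false, sub_eq_zero, Nat.cast_inj] at h9
  simp only [Multiset.card_add, Multiset.card_replicate, hc] at h10
  obtain ⟨k, hk⟩ := hn
  omega

theorem wts_sl (hn : Odd n) (h : Submodule ℝ (sl (Fin n) ℂ)) (π : G →* End ℂ (sl (Fin n) ℂ))
    (hG : Subgroup.closure {a | ∃ X, mat (π a) = exp (mat (ad ℂ (sl (Fin n) ℂ) X))} = ⊤) :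
    Wts h π (nuA n) n := by
  have lie : ∀ j X Y, nuA n j ⁅X, Y⁆ = nuA n j X * nuA n j Y - nuA n j Y * nuA n j X := by
    refine Fin.forall_fin_two.2 ⟨fun X Y => rfl, fun X Y => ?_⟩
    change -(X.1 * Y.1 - Y.1 * X.1).transpose =
      -X.1.transpose * -Y.1.transpose - -Y.1.transpose * -X.1.transpose
    simp
  refine ⟨lie, Fin.forall_fin_two.2 ⟨Subtype.val_injective, fun X Y e => ?_⟩,
    stab_of_exp lie hG, fun X _ => exa_mult hn⟩
  exact Subtype.ext (Matrix.transpose_injective (neg_injective e))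

end Pool.Agent.Lib.MP_162bbe_gt.Ti
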