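import Pool.Agent.Lib.MP_162bbe_gt.Ti.Gen

/-! The hyperbolic part of an automorphism. -/

namespace Pool.Agent.Lib.MP_162bbe_gt.Ti

open Module Polynomial LieAlgebra

theorem exists_interp (Z : Finset ℂ) (N : ℕ) : ∃ q : ℝ[X], ∀ z ∈ Z,
    (X - C z) ^ N ∣ q.map (algebraMap ℝ ℂ) - C (Real.log ‖z‖ : ℂ) := by
  classical
  obtain ⟨p, hp⟩ := Ideal.exists_forall_sub_mem_ideal (ι := ↥(Z ∪ Z.image (starRingEnd ℂ)))
    (I := fun z => Ideal.span {(X - C z.1) ^ N}) (fun z w h =>
      (Ideal.isCoprime_span_singleton_iff _ _).2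
        (isCoprime_X_sub_C_of_isUnit_sub (sub_ne_zero.2 (Subtype.coe_ne_coe.2 h)).isUnit).pow)
    fun z => C (Real.log ‖z.1‖ : ℂ)
  obtain ⟨q, hq⟩ : C (1 / 2 : ℂ) * (p + p.map (starRingEnd ℂ)) ∈ lifts (algebraMap ℝ ℂ) :=
    (lifts_iff_coeff_lifts _).2 fun i => ⟨(p.coeff i).re, by simp [Complex.add_conj]⟩
  refine ⟨q, fun z hz => ?_⟩
  have h1 := Ideal.mem_span_singleton.1 (hp ⟨z, Finset.mem_union_left _ hz⟩)
  have h2 := Polynomial.map_dvd (starRingEnd ℂ) (Ideal.mem_span_singleton.1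
    (hp ⟨_, Finset.mem_union_right _ (Finset.mem_image_of_mem _ hz)⟩))
  simp only [Polynomial.map_pow, Polynomial.map_sub, map_X, map_C, Complex.conj_conj,
    Complex.conj_ofReal, Complex.norm_conj] at h2
  have h3 : C (1 / 2 : ℂ) * 2 = 1 := by
    rw [← map_ofNat C, ← map_mul, one_div, inv_mul_cancel₀ two_ne_zero, map_one]
  rw [show q.map (algebraMap ℝ ℂ) = _ from hq]
  exact (Dvd.dvd.mul_left (h1.add h2) (C (1 / 2 : ℂ))).trans
    (dvd_of_eq (by linear_combination (-C (Real.log ‖z‖ : ℂ)) * h3))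

theorem log_card {n : ℕ} (T : Matrix (Fin n) (Fin n) ℂ) : T.charpoly.roots.card = n := by
  rw [← (IsAlgClosed.splits _).natDegree_eq_card_roots, Matrix.charpoly_natDegree_eq_dim,
    Fintype.card_fin]

theorem log_det {n : ℕ} (T : Matrix (Fin n) (Fin n) ℂ) (q : ℂ[X]) :
    (aeval T q).det = (T.charpoly.roots.map fun z => eval z q).prod := by
  have h0 : ∀ c : ℂ, (aeval T (C c)).det = (T.charpoly.roots.map fun z => eval z (C c)).prod :=
    fun c => by simp [log_card, Algebra.algebraMap_eq_smul_one]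
  induction (IsAlgClosed.splits q) using Submonoid.closure_induction with
  | mem p hp =>
    obtain ⟨c, rfl⟩ | ⟨c, rfl⟩ := hp
    · exact h0 c
    · have h1 := T.eval_charpoly (-c)
      rw [(IsAlgClosed.splits _).eval_eq_prod_roots_of_monic T.charpoly_monic] at h1
      have h2 : aeval T (X + C c) = -(Matrix.scalar _ (-c) - T) := by
        rw [map_add, aeval_X, aeval_C, map_neg, neg_sub, sub_neg_eq_add]
        rfl
      rw [h2, Matrix.det_neg, ← h1, Fintype.card_fin, congrArg ((-1 : ℂ) ^ ·) (log_card T).symm,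
        ← Multiset.prod_replicate, ← Multiset.map_const', ← Multiset.prod_map_mul]
      simp [add_comm]
  | one => simp
  | mul p p' _ _ h h' => simp only [map_mul, Matrix.det_mul, h, h', eval_mul, Multiset.prod_map_mul]

theorem roots_aeval {n : ℕ} (T : Matrix (Fin n) (Fin n) ℂ) (q : ℂ[X]) :
    (aeval T q).charpoly.roots = T.charpoly.roots.map fun z => eval z q := by
  rw [← roots_multiset_prod_X_sub_C (T.charpoly.roots.map fun z => eval z q)]
  congr 1
  refine Polynomial.funext fun w => ?_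
  have := log_det T (C w - q)
  rw [map_sub, aeval_C] at this
  rw [Matrix.eval_charpoly, eval_multiset_prod]
  exact this.trans (by simp)

/-- `D` is `log ‖z‖` on the generalised eigenspace for `z`. -/
def Lg {A : Type} [AddCommGroup A] [Module ℂ A] (a D : End ℂ A) : Prop :=
  ∀ z, ∀ x ∈ a.maxGenEigenspace z, D x = (Real.log ‖z‖ : ℂ) • x ∧ (z = 0 → x = 0)

theorem log_lg {A : Type} [AddCommGroup A] [Module ℂ A] [Module.Finite ℂ A] {a : End ℂ A}
    (hu : IsUnit a) {q : ℂ[X]} {N : ℕ} (hN : finrank ℂ A ≤ N)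
    (hq : ∀ z ∈ a.charpoly.roots, (X - C z) ^ N ∣ q - C (Real.log ‖z‖ : ℂ)) :
    Lg a (aeval a q) := fun z x hx => by
  constructor
  · by_cases h0 : x = 0
    · simp [h0]
    rw [End.maxGenEigenspace_eq_genEigenspace_finrank] at hx
    obtain ⟨p, hp⟩ := hq z ((mem_roots a.charpoly_monic.ne_zero).2
      ((End.hasEigenvalue_iff_isRoot_charpoly a z).1 (End.hasEigenvalue_of_hasGenEigenvalue
        ((Submodule.ne_bot_iff _).2 ⟨x, hx, h0⟩))))
    have h1 := End.mem_genEigenspace_nat.1 ((a.genEigenspace z).monotone (Nat.cast_le.2 hN) hx)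
    have h2 := congrArg (fun r => aeval a r x) hp
    rw [LinearMap.mem_ker] at h1
    simpa [mul_comm _ p, Algebra.algebraMap_eq_smul_one, h1, sub_eq_zero] using h2
  · rintro rfl
    obtain ⟨m, hm⟩ := (End.mem_maxGenEigenspace _ _ _).1 hx
    rw [zero_smul, sub_zero] at hm
    exact ((End.isUnit_iff _).1 (hu.pow m)).1 (hm.trans (map_zero _).symm)

theorem log_der {A B C : Type} [AddCommGroup A] [Module ℂ A] [AddCommGroup B] [Module ℂ B]
    [AddCommGroup C] [Module ℂ C] [Module.Finite ℂ A] [Module.Finite ℂ B]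
    (β : A →ₗ[ℂ] B →ₗ[ℂ] C) {a a' : End ℂ A} {b b' : End ℂ B} {c c' : End ℂ C}
    (h : ∀ x y, c (β x y) = β (a x) (b y)) (ha : Lg a a') (hb : Lg b b') (hc : Lg c c') (x : A)
    (y : B) : c' (β x y) = β (a' x) y + β x (b' y) := by
  have hx : x ∈ ⨆ z, a.maxGenEigenspace z := by simp [End.iSup_maxGenEigenspace_eq_top]
  have hy : y ∈ ⨆ z, b.maxGenEigenspace z := by simp [End.iSup_maxGenEigenspace_eq_top]
  induction hx using Submodule.iSup_induction' with
  | zero => simp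
  | add x x' _ _ h1 h2 => simp only [map_add, LinearMap.add_apply, h1, h2]; abel
  | mem u x hx =>
    induction hy using Submodule.iSup_induction' with
    | zero => simp
    | add y y' _ _ h1 h2 => simp only [map_add, h1, h2]; abel
    | mem v y hy =>
      by_cases hu : u = 0
      · simp [(ha u x hx).2 hu]
      by_cases hv : v = 0
      · simp [(hb v y hy).2 hv]
      rw [(hc _ _ (gen_mul β h hx hy)).1, (ha u x hx).1, (hb v y hy).1, norm_mul,
        Real.log_mul (norm_ne_zero_iff.2 hu) (norm_ne_zero_iff.2 hv)]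
      simp [add_smul]

theorem log_cas {g : Type} [LieRing g] [LieAlgebra ℂ g] [Module.Finite ℂ g] [IsKilling ℂ g]
    {ι : Type} [Fintype ι] {e e' : ι → g}
    (hres : ∀ Y, Y = ∑ p, killingForm ℂ g (e' p) Y • e p) (X : g) :
    X = ∑ p, ⁅⁅X, e' p⁆, e p⁆ := by
  refine sub_eq_zero.1 ((IsKilling.killingForm_nondegenerate ℂ g).1 _ fun Y => ?_)
  have h1 : ad ℂ g X ∘ₗ ad ℂ g Y =
      ∑ p, (killingForm ℂ g (e' p) ∘ₗ ad ℂ g X ∘ₗ ad ℂ g Y).smulRight (e p) := by
    ext Z
    simpa using hres ⁅X, ⁅Y, Z⁆⁆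
  rw [map_sub, LinearMap.sub_apply, killingForm_apply_apply, h1, map_sum, map_sum,
    LinearMap.sum_apply, sub_eq_zero]
  refine Finset.sum_congr rfl fun p _ => ?_
  rw [LinearMap.trace_smulRight, LieModule.traceForm_apply_lie_apply, ← lie_skew X,
    LinearMap.map_neg₂, LieModule.traceForm_apply_lie_apply, ← lie_skew (e p), lie_neg, map_neg,
    neg_neg]
  rfl

theorem hyp {g : Type} [LieRing g] [LieAlgebra ℂ g] [Module.Finite ℂ g] [IsKilling ℂ g]
    {h : Submodule ℝ g} (hl : ∀ X ∈ h, ∀ Y ∈ h, ⁅X, Y⁆ ∈ h) {a : End ℂ g}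
    (ha : ∀ X Y, a ⁅X, Y⁆ = ⁅a X, a Y⁆) (hu : IsUnit a) {ι : Type} [Fintype ι] (e e' : ι → g)
    (he : ∀ p, e p ∈ h) (he' : ∀ p (N : ℕ), (a ^ N) (e' p) ∈ h)
    (hres : ∀ Y, Y = ∑ p, killingForm ℂ g (e' p) Y • e p) {n s : ℕ}
    (ν : Fin s → g →ₗ[ℂ] Matrix (Fin n) (Fin n) ℂ)
    (hν : ∀ j X Y, ν j ⁅X, Y⁆ = ν j X * ν j Y - ν j Y * ν j X)
    (T : Fin s → Matrix (Fin n) (Fin n) ℂ) (hT : ∀ j, Itw (RingHom.id ℂ) a (ν j) (T j)) :
    ∃ X ∈ h, ⨆ μ : ℝ, End.eigenspace (ad ℂ g X) μ = ⊤ ∧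
      ∀ j, (ν j X).charpoly.roots = (T j).charpoly.roots.map fun z => (Real.log ‖z‖ : ℂ) := by
  classical
  obtain ⟨q, hq⟩ := exists_interp (a.charpoly.roots.toFinset ∪
    Finset.univ.biUnion fun j => (T j).charpoly.roots.toFinset) (finrank ℂ g + n + 1)
  have hqT := fun j z (hz : z ∈ (T j).charpoly.roots) => hq z (Finset.mem_union_right _
    (Finset.mem_biUnion.2 ⟨j, Finset.mem_univ j, Multiset.mem_toFinset.2 hz⟩))
  have La := log_lg hu (by omega) fun z hz =>
    hq z (Finset.mem_union_left _ (Multiset.mem_toFinset.2 hz))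
  have d1 := log_der (LinearMap.mk₂ ℂ (fun x y : g => ⁅x, y⁆) add_lie smul_lie lie_add
    fun _ _ _ => lie_smul _ _ _) ha La La La
  obtain ⟨X, hX⟩ := LieDerivation.IsKilling.exists_eq_ad (R := ℂ) (L := g)
    ⟨aeval a (q.map (algebraMap ℝ ℂ)), fun x y =>
      (d1 x y).trans (by rw [add_comm, sub_eq_add_neg, lie_skew]; rfl)⟩
  have hX' : ∀ Y, ⁅X, Y⁆ = aeval a (q.map (algebraMap ℝ ℂ)) Y := fun Y =>
    (LieDerivation.ad_apply_apply _ _ X Y).symm.trans (DFunLike.congr_fun hX Y)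
  have hc := log_cas hres X
  refine ⟨X, hc ▸ h.sum_mem fun p _ => hl _ ?_ _ (he p), eq_top_iff.2 ?_, fun j => ?_⟩
  · rw [hX', aeval_eq_sum_range, LinearMap.sum_apply]
    refine h.sum_mem fun i _ => ?_
    rw [coeff_map, LinearMap.smul_apply, algebraMap_smul]
    exact h.smul_mem _ (he' p i)
  · rw [← a.iSup_maxGenEigenspace_eq_top]
    exact iSup_le fun z => le_iSup_of_le (Real.log ‖z‖) fun x hx =>
      End.mem_eigenspace_iff.2 ((hX' x).trans (La z x hx).1)
  have hd := (hT j).det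
  have LT := log_lg (a := Matrix.toLinAlgEquiv' (T j)) (q := q.map (algebraMap ℝ ℂ))
    (((Matrix.isUnit_iff_isUnit_det _).2 (hd ▸ isUnit_one)).map _) (N := finrank ℂ g + n + 1)
    (by simp; omega) fun z hz => hqT j z (Matrix.charpoly_toLin' (T j) ▸ hz)
  have d2 := log_der (Matrix.toLinAlgEquiv'.toLinearMap ∘ₗ ν j) (fun x y =>
    (DFunLike.congr_fun (map_mul Matrix.toLinAlgEquiv' (T j) (ν j x)) y).symm.trans (by
      rw [(hT j).comm, map_mul]; rfl)) La LT LT
  rw [aeval_algHom_apply] at d2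
  have hr : (aeval (T j) (q.map (algebraMap ℝ ℂ))).charpoly.roots =
      (T j).charpoly.roots.map fun z => (Real.log ‖z‖ : ℂ) := by
    rw [roots_aeval]
    refine Multiset.map_congr rfl fun z hz => ?_
    simpa [sub_eq_zero] using dvd_iff_isRoot.1 ((dvd_pow_self _ (by omega)).trans (hqT j z hz))
  have t1 : (aeval (T j) (q.map (algebraMap ℝ ℂ))).trace = 0 := by
    have h0 : ∀ z ∈ (T j).charpoly.roots, ‖z‖ ≠ 0 := fun z hz e => by
      rw [Matrix.det_eq_prod_roots_charpoly, Multiset.prod_eq_zero (norm_eq_zero.1 e ▸ hz)] at hd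
      exact zero_ne_one hd
    have h1 := Real.log_multiset_prod (s := (T j).charpoly.roots.map fun z => ‖z‖)
      (Multiset.forall_mem_map_iff.2 h0)
    have h2 := map_multiset_prod (normHom (α := ℂ)) (T j).charpoly.roots
    have h3 := map_multiset_sum Complex.ofRealHom
      (((T j).charpoly.roots.map fun z => ‖z‖).map fun x => Real.log x)
    rw [← Matrix.det_eq_prod_roots_charpoly, hd, map_one] at h2
    rw [← h1, show ((T j).charpoly.roots.map fun z => ‖z‖).prod = 1 from h2.symm, Real.log_one,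
      map_zero] at h3
    rw [Matrix.trace_eq_sum_roots_charpoly, hr, h3]
    simp
  have t2 : (ν j X).trace = 0 := by
    rw [hc, map_sum, Matrix.trace_sum]
    exact Finset.sum_eq_zero fun p _ => by rw [hν, Matrix.trace_sub, Matrix.trace_mul_comm, sub_self]
  generalize aeval (T j) (q.map (algebraMap ℝ ℂ)) = Q at d2 hr t1
  have c1 : ∀ M, Commute M (Q - ν j X) := fun M => by
    have : M ∈ Algebra.adjoin ℂ (Set.range (ν j)) := (hT j).gen ▸ Algebra.mem_top
    refine (Algebra.commute_of_mem_adjoin_of_forall_mem_commute this ?_).symm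
    rintro _ ⟨Y, rfl⟩
    have h1 : Q * ν j Y = ν j ⁅X, Y⁆ + ν j Y * Q := Matrix.toLinAlgEquiv'.injective (by
      rw [map_add, map_mul, map_mul, hX']
      exact LinearMap.ext (d2 Y))
    rw [Commute, SemiconjBy, sub_mul, mul_sub, h1, hν]
    abel
  obtain ⟨c, h2⟩ := Matrix.mem_range_scalar_of_commute_single fun i k _ => c1 (Matrix.single i k 1)
  have h3 := congrArg Matrix.trace h2
  rw [Matrix.trace_sub, t1, t2, sub_self] at h3
  rw [← hr]
  congr 2
  refine (sub_eq_zero.1 (h2.symm.trans ?_)).symm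
  ext i k
  have : c = 0 := by simpa [i.pos.ne'] using h3
  simp [this]

end Pool.Agent.Lib.MP_162bbe_gt.Ti
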