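import Pool.Agent.Lib.MP_162bbe_gt.Ti.Gen
import Pool.Agent.Lib.MP_162bbe_gt.SU.Char

/-! Restriction of scalars; lifting an automorphism to the Tits algebra. -/

namespace Pool.Agent.Lib.MP_162bbe_gt.Ti

open Module Polynomial Pool.Agent.Lib.MP_162bbe_gt.SU

theorem norm_roots {k K V : Type} [Field k] [CharZero k] [Field K] [Algebra k K]
    [Module.Finite k K] [AddCommGroup V] [Module K V] [Module k V] [IsScalarTower k K V]
    [Module.Finite K V] [Module.Finite k V] (u : End K V) (σ : k →+* ℂ) {s : ℕ}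
    (hs : finrank k K = s) (τ : Fin s → K →+* ℂ) (hi : Function.Injective τ)
    (hτ : ∀ j, (τ j).comp (algebraMap k K) = σ) :
    ((u.restrictScalars k).charpoly.map σ).roots = ∑ j, (u.charpoly.map (τ j)).roots := by
  let _ := σ.toAlgebra
  let τ' : Fin s → K →ₐ[k] ℂ := fun j => { τ j with commutes' := RingHom.congr_fun (hτ j) }
  have hb : Function.Bijective τ' := (Fintype.bijective_iff_injective_and_card _).2
    ⟨fun a b hab => hi (congrArg AlgHom.toRingHom hab), by
      rw [AlgHom.card, Fintype.card_fin, hs]⟩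
  have h1 : (u.restrictScalars k).charpoly.map σ = ∏ j, u.charpoly.map (τ j) := by
    refine eq_of_infinite_eval_eq _ _ ((Set.infinite_range_of_injective σ.injective).mono ?_)
    rintro _ ⟨c, rfl⟩
    have h2 : algebraMap k (End k V) c - u.restrictScalars k =
        (algebraMap K (End K V) (algebraMap k K c) - u).restrictScalars k :=
      LinearMap.ext fun v => by simp
    rw [Set.mem_ofPred_eq, eval_map, eval₂_at_apply, LinearMap.eval_charpoly, h2,
      LinearMap.det_restrictScalars, eval_prod]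
    refine (Algebra.norm_eq_prod_embeddings k ℂ _).trans ?_
    rw [← hb.prod_comp]
    refine Finset.prod_congr rfl fun j _ => ?_
    rw [← RingHom.congr_fun (hτ j) c, RingHom.comp_apply, eval_map, eval₂_at_apply,
      LinearMap.eval_charpoly]
    rfl
  rw [h1, roots_prod _ _ (h1 ▸ ((LinearMap.charpoly_monic _).map σ).ne_zero), Finset.sum,
    Multiset.bind, Multiset.join]

theorem exists_ext {k K : Type} [Field k] [CharZero k] [Field K] [Algebra k K] [Module.Finite k K]
    (σ : k →+* ℂ) : ∃ τ : Fin (finrank k K) → K →+* ℂ, Function.Injective τ ∧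
      ∀ j, (τ j).comp (algebraMap k K) = σ := by
  let _ := σ.toAlgebra
  let E := (Fintype.equivFinOfCardEq (AlgHom.card k K ℂ)).symm
  exact ⟨fun j => E j, fun a b h => E.injective (AlgHom.coe_ringHom_injective h),
    fun j => RingHom.ext (E j).commutes⟩

variable {k L K D : Type} [Field k] [AddCommGroup L] [Module k L] [Module.Finite k L] [Field K]
  [CharZero K] [Algebra k K] [DivisionRing D] [Algebra K D] [Algebra.IsCentral K D]
  [Module.Finite K D] {n m d : ℕ}

/-- The composite of `ψ` with a splitting. -/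
def th (ψ : L →ₛₗ[algebraMap k K] Matrix (Fin m) (Fin m) D) {t : K →+* ℂ}
    {ρ : Matrix (Fin m) (Fin m) D →+* Matrix (Fin n) (Fin n) ℂ} (hρ : Over t ρ) :
    L →ₛₗ[t.comp (algebraMap k K)] Matrix (Fin n) (Fin n) ℂ where
  toFun x := ρ (ψ x)
  map_add' x y := by rw [map_add, map_add]
  map_smul' c x := by
    rw [map_smulₛₗ, Algebra.smul_def, map_mul, hρ, Matrix.scalar_apply,
      ← Matrix.smul_eq_diagonal_mul]
    rfl

omit [Module.Finite k L] [CharZero K] in
theorem th_gen (h : Num K D n m d) {ψ : L →ₛₗ[algebraMap k K] Matrix (Fin m) (Fin m) D}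
    (hg : Algebra.adjoin K (Set.range ψ) = ⊤) {t : K →+* ℂ}
    {ρ : Matrix (Fin m) (Fin m) D →+* Matrix (Fin n) (Fin n) ℂ} (hρ : Over t ρ) :
    Algebra.adjoin ℂ (Set.range (th ψ hρ)) = ⊤ := by
  have := h.simple AlgEquiv.refl
  have := Algebra.IsCentral.of_algEquiv K _ _ (AlgEquiv.refl : Matrix (Fin m) (Fin m) D ≃ₐ[K] _)
  let _ : Algebra K ℂ := t.toAlgebra
  have h1 : ∀ a, ρ a ∈ Algebra.adjoin ℂ (Set.range (th ψ hρ)) := fun a => by
    have ha : a ∈ Algebra.adjoin K (Set.range ψ) := hg ▸ Algebra.mem_top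
    induction ha using Algebra.adjoin_induction with
    | mem x hx =>
      obtain ⟨y, rfl⟩ := hx
      exact Algebra.subset_adjoin ⟨y, rfl⟩
    | algebraMap c => exact hρ c ▸ Subalgebra.algebraMap_mem _ (t c)
    | add x y _ _ hx hy => exact map_add ρ x y ▸ add_mem hx hy
    | mul x y _ _ hx hy => exact map_mul ρ x y ▸ mul_mem hx hy
  refine top_le_iff.1 fun M _ => ?_
  obtain ⟨w, rfl⟩ := (base_bij ({ ρ with commutes' := hρ } : _ →ₐ[K] _) h.pos
    (h.rank AlgEquiv.refl)).2 M
  induction w using TensorProduct.induction_on with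
  | zero =>
    rw [map_zero]
    exact zero_mem _
  | tmul c a => exact Subalgebra.smul_mem _ (h1 a) c
  | add v w hv hw =>
    rw [map_add]
    exact add_mem (hv trivial) (hw trivial)

omit [Module.Finite k L] in
theorem exists_y (h : Num K D n m d) {ψ : L →ₛₗ[algebraMap k K] Matrix (Fin m) (Fin m) D}
    (hg : Algebra.adjoin K (Set.range ψ) = ⊤)
    {ρ : (K →+* ℂ) → Matrix (Fin m) (Fin m) D →+* Matrix (Fin n) (Fin n) ℂ}
    (hρ : ∀ t, Over t (ρ t)) (f : End k L) {t₀ : K →+* ℂ} {T : Matrix (Fin n) (Fin n) ℂ}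
    (hT : IsUnit T) (hc : ∀ x, T * ρ t₀ (ψ x) = ρ t₀ (ψ (f x)) * T) :
    ∃ y, ∀ t, Itw _ (f ^ (2 * n * n)) (th ψ (hρ t)) (ρ t y) := by
  have : Nonempty (Fin n) := ⟨⟨0, h.pos⟩⟩
  have := h.simple AlgEquiv.refl
  obtain ⟨x, hx0, hx⟩ := desc h AlgEquiv.refl (hρ t₀) ψ (fun z => ψ (f z)) hT.ne_zero hc
  have h1 : ∀ t, (ρ t x).det ≠ 0 := fun t h0 => by
    obtain ⟨v, hv0, hv⟩ := Matrix.exists_mulVec_eq_zero_iff.2 h0
    have h2 : ∀ M ∈ Algebra.adjoin ℂ (Set.range (th ψ (hρ t))), ∀ v,
        (ρ t x).mulVec v = 0 → (ρ t x).mulVec (M.mulVec v) = 0 := fun M hM => by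
      induction hM using Algebra.adjoin_induction with
      | mem M hM =>
        obtain ⟨z, rfl⟩ := hM
        intro v hv
        change (ρ t x).mulVec ((ρ t (ψ z)).mulVec v) = 0
        rw [Matrix.mulVec_mulVec, ← map_mul, hx, map_mul, ← Matrix.mulVec_mulVec, hv,
          Matrix.mulVec_zero]
      | algebraMap c =>
        intro v hv
        rw [Algebra.algebraMap_eq_smul_one, Matrix.smul_mulVec, Matrix.one_mulVec,
          Matrix.mulVec_smul, hv, smul_zero]
      | add M N _ _ hM hN =>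
        intro v hv
        rw [Matrix.add_mulVec, Matrix.mulVec_add, hM v hv, hN v hv, add_zero]
      | mul M N _ _ hM hN =>
        intro v hv
        rw [← Matrix.mulVec_mulVec]
        exact hM _ (hN v hv)
    obtain ⟨a, ha⟩ := Function.ne_iff.1 hv0
    refine hx0 ((ρ t).injective ((Matrix.ext fun b c => ?_).trans (map_zero _).symm))
    have h3 := congrFun (h2 (Matrix.single c a 1) (th_gen h hg (hρ t) ▸ Algebra.mem_top) v hv) b
    rw [Matrix.single_mulVec, one_mul] at h3
    simpa [Matrix.mulVec, dotProduct, Function.update_apply, show v a ≠ 0 from ha] using h3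
  have h3 : ∀ t, t ((chi K x).coeff 0 ^ (m * 2)) = (ρ t x).det ^ (2 * n) := fun t => by
    have h4 := congrArg (coeff · 0) (chi_pow h AlgEquiv.refl (hρ t) x)
    simp only [coeff_zero_eq_eval_zero, eval_pow] at h4
    rw [← coeff_zero_eq_eval_zero, ← coeff_zero_eq_eval_zero, coeff_map] at h4
    rw [map_pow, pow_mul, Matrix.det_eq_sign_charpoly_coeff, mul_pow, ← pow_mul (-1 : ℂ),
      mul_left_comm, pow_mul (-1 : ℂ), neg_one_sq, one_pow, one_mul, mul_comm 2, pow_mul, ← h4]
    rfl
  refine ⟨algebraMap K _ ((chi K x).coeff 0 ^ (m * 2))⁻¹ * x ^ (2 * n * n), fun t =>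
    ⟨?_, fun z => ?_, th_gen h hg (hρ t)⟩⟩
  · rw [map_mul, hρ t, map_inv₀, h3, map_pow, Matrix.scalar_apply, ← Matrix.smul_eq_diagonal_mul,
      Matrix.det_smul, Matrix.det_pow, Fintype.card_fin, inv_pow, ← pow_mul,
      inv_mul_cancel₀ (pow_ne_zero _ (h1 t))]
  · have h4 : ∀ N z, x ^ N * ψ z = ψ ((f ^ N) z) * x ^ N := fun N => by
      induction N with
      | zero => simp
      | succ N ih =>
        intro z
        rw [pow_succ, mul_assoc, hx, ← mul_assoc, ih, mul_assoc, pow_succ f]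
        rfl
    change ρ t _ * ρ t (ψ z) = ρ t (ψ _) * ρ t _
    rw [← map_mul, ← map_mul, mul_assoc, h4, ← mul_assoc, ← mul_assoc, Algebra.commutes]

end Pool.Agent.Lib.MP_162bbe_gt.Ti
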