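import Pool.Agent.Lib.MP_162bbe_gt.Ti.Defs
import Pool.Agent.Lib.MP_162bbe_gt.Ti.Norm
import Pool.Agent.Lib.MP_162bbe_gt.Ti.Log
import Pool.Agent.Lib.MP_162bbe_gt.Ad.Lift
import Pool.Agent.Lib.MP_162bbe_gt.Ad.Mah
import Pool.Agent.Lib.MP_162bbe_gt.SU.Main

/-! Short elements have finite order. -/

namespace Pool.Agent.Lib.MP_162bbe_gt.Ti

open Module LieAlgebra NumberField Polynomial Pool.Agent.Lib.MP_162bbe_gt.Ad

theorem Itw.ne_zero {k L : Type} [Field k] [AddCommGroup L] [Module k L] {n : ℕ} {s : k →+* ℂ}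
    {f : End k L} {θ : L →ₛₗ[s] Matrix (Fin n) (Fin n) ℂ} {T : Matrix (Fin n) (Fin n) ℂ}
    (h : Itw s f θ T) {w : ℂ} (hw : w ∈ T.charpoly.roots) : w ≠ 0 := by
  rintro rfl
  have h1 := h.det
  rw [Matrix.det_eq_prod_roots_charpoly, Multiset.prod_eq_zero hw] at h1
  exact zero_ne_one h1

theorem res_id {k L g : Type} [Field k] [LieRing L] [LieAlgebra k L] [LieRing g] [LieAlgebra ℂ g]
    [Module.Finite k L] [Module.Finite ℂ g] [IsKilling k L] {σ : k →+* ℂ} {φ : L →ₛₗ[σ] g}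
    {ρ : End k L →+* End ℂ g} (h : Frm φ ρ) : ∃ c b : Fin (finrank k L) → L,
      ∀ Y, Y = ∑ p, killingForm ℂ g (φ (b p)) Y • φ (c p) := by
  let b := finBasis k L
  let c := (killingForm k L).dualBasis (IsKilling.killingForm_nondegenerate k L) b
  refine ⟨c, b, fun Y => ?_⟩
  have h1 := h.ext (T := 1) (T' := ∑ p, (killingForm ℂ g (φ (b p))).smulRight (φ (c p))) fun y => by
    conv_lhs => rw [End.one_apply, ← c.sum_repr y, map_sum]
    rw [LinearMap.sum_apply]
    refine Finset.sum_congr rfl fun p _ => ?_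
    rw [map_smulₛₗ, LinearMap.smulRight_apply, h.kil, LinearMap.BilinForm.dualBasis_repr_apply,
      LieModule.traceForm_comm]
  simpa using LinearMap.congr_fun h1 Y

theorem fin_order {r n s d : ℕ} {g : Fin r → Type} [∀ i, LieRing (g i)] [∀ i, LieAlgebra ℂ (g i)]
    [∀ i, Module.Finite ℂ (g i)] [∀ i, IsSimple ℂ (g i)] {h : ∀ i, Submodule ℝ (g i)} {G : Type}
    [Group G] [TopologicalSpace G] [IsTopologicalGroup G] {π : ∀ i, G →* End ℂ (g i)}
    (hA : Adj h π) {ν : ∀ i, Fin s → g i →ₗ[ℂ] Matrix (Fin n) (Fin n) ℂ}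
    (hν : ∀ i, Wts (h i) (π i) (ν i) d) :
    ∃ U ∈ nhds (1 : G), ∀ Γ : Subgroup G, CompactSpace (G ⧸ Γ) → TitsArith h π ν d Γ →
      ∀ b : G, ∀ γ ∈ Γ, b * γ * b⁻¹ ∈ U → IsOfFinOrder γ := by
  classical
  have hker : ∀ γ, (∀ i, π i γ = 1) → IsOfFinOrder γ := fun γ hγ =>
    finite_powers.1 (hA.fin.subset (by
      rintro _ ⟨n, rfl⟩ i
      rw [map_pow, hγ, one_pow]))
  rcases isEmpty_or_nonempty (Fin r) with hr | ⟨⟨i₀⟩⟩
  · exact ⟨_, Filter.univ_mem, fun Γ _ _ b γ _ _ => hker γ fun i => isEmptyElim i⟩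
  let E := Fintype.equivFin (Fin r × Bool)
  obtain ⟨c, hc, hdd⟩ := dd_main (s * (n * d)) (Fintype.card (Fin r × Bool))
  have hR : 1 < Real.exp (c / (n + 1)) := Real.one_lt_exp_iff.2 (by positivity)
  have hpow := (continuous_pow (2 * n * n)).continuousAt (x := (1 : G))
  rw [ContinuousAt, one_pow] at hpow
  refine ⟨_, hpow (Filter.iInter_mem.2 fun i =>
    spec_nhds (fun _ : Fin 1 => matH (π i)) (fun _ => (hA.fac i).cont) hR), ?_⟩
  rintro Γ _ ⟨k, L, K, D, _, _, _, _, _, _, _, _, _, X,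
    ⟨m, ψ, ρ, τ, _, hD, hn, hs, hgen, hρ, hτ, hres, happ⟩⟩ b γ hγ hU
  have := X.finite
  have := X.idx
  choose ρ' hρ' using fun i => exists_frm (X.lie i) (X.dim i) (X.span i)
  have := (hρ' i₀).killing
  obtain ⟨F, hF, hlie, hΛ⟩ := lift hA X hρ' i₀
  have hF' : ∀ i a x, X.φ i (F a x) = π i a.1 (X.φ i x) := fun i a x => by
    rw [← (hρ' i).app, hF]
  have : Module.Finite k K := Module.Finite.of_restrictScalars_finite ℚ k K
  have j₀ : Fin s := ⟨0, hs ▸ finrank_pos⟩
  have hn0 : 0 < n := Nat.pos_of_ne_zero (by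
    rintro rfl
    obtain ⟨x, y, hxy⟩ := (hρ' i₀).exists_lie_ne
    exact hxy ((hρ' i₀).inj ((hν i₀).inj j₀ (Subsingleton.elim _ _))))
  have hN : SU.Num K D n m d := ⟨hn0, hD, hn⟩
  have hd0 : 0 < d := Nat.pos_of_mul_pos_left (hn ▸ hn0)
  have : Module.Finite K D := Module.finite_of_finrank_pos (by rw [hD]; positivity)
  let _ : Algebra k D := ((algebraMap K D).comp (algebraMap k K)).toAlgebra'
    fun a x => Algebra.commutes _ x
  have : IsScalarTower k K D := IsScalarTower.of_algebraMap_eq fun _ => rfl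
  have : Module.Finite k D := Module.Finite.trans K D
  obtain ⟨t₀, ht₀, ht⟩ := (hν i₀).stab j₀ γ
  obtain ⟨y, hy⟩ := exists_y hN hgen hρ (F ⟨γ, hγ⟩) ht₀ (t₀ := τ i₀ j₀) fun x => by
    rw [happ, happ, ht, hF']
  rw [← map_pow] at hy
  set a : Γ := ⟨γ, hγ⟩ ^ (2 * n * n) with ha
  have hm := (F a).charpoly_monic
  have hb : ∀ i z, eval₂ (X.σ i) z (F a).charpoly = 0 → ‖z‖ ≤ Real.exp (c / (n + 1)) :=
    fun i z hz => by
      refine (Set.mem_iInter.1 hU i 0 z ?_).le
      beta_reduce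
      rw [conj_pow, map_mul, Matrix.charpoly_mul_comm, ← map_mul, inv_mul_cancel_left, matH_apply,
        mat_charpoly]
      rwa [eval₂_eq_eval_map, ← (hρ' i).char, hF] at hz
  obtain ⟨N, hN0, -, hN'⟩ := Subgroup.exists_pow_mem_of_index_ne_zero
    (Subgroup.FiniteIndex.index_ne_zero (H := X.Δ)) a
  have hint := integral (X.σ i₀) X.fg X.full hN0 (map_pow F _ N ▸ hΛ _ hN')
  let χ := (y.toLinearMapRight'.restrictScalars k).charpoly
  have hχ : χ.Monic := LinearMap.charpoly_monic _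
  have hroots : ∀ (σ : k →+* ℂ) (τ : Fin s → K →+* ℂ), Function.Injective τ →
      (∀ j, (τ j).comp (algebraMap k K) = σ) →
      (χ.map σ).roots = ∑ j, d • (ρ (τ j) y).charpoly.roots := fun σ τ h1 h2 =>
    (norm_roots (y.toLinearMapRight'.restrictScalars K) σ hs τ h1 h2).trans
      (Finset.sum_congr rfl fun j _ => SU.chi_roots hN AlgEquiv.refl (hρ (τ j)) y)
  have hmem : ∀ (σ : k →+* ℂ), ∀ w ∈ (χ.map σ).roots, ∃ t : K →+* ℂ,
      t.comp (algebraMap k K) = σ ∧ w ∈ (ρ t y).charpoly.roots := fun σ w hw => by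
    subst hs
    obtain ⟨τ', h1, h2⟩ := exists_ext (K := K) σ
    rw [hroots σ τ' h1 h2, Multiset.mem_sum] at hw
    obtain ⟨j, -, hj⟩ := hw
    exact ⟨τ' j, h2 j, Multiset.mem_of_mem_nsmul hj⟩
  let T : Fin r × Bool → k →+* ℂ := fun p =>
    bif p.2 then X.σ p.1 else ComplexEmbedding.conjugate (X.σ p.1)
  have hT : ∀ j, InfinitePlace.mk ((T ∘ E.symm) j) = InfinitePlace.mk (X.σ (E.symm j).1) :=
    fun j => by
      rcases h1 : (E.symm j).2 <;> simp only [Function.comp_apply, T, h1, cond]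
      exact InfinitePlace.mk_conjugate_eq _
  have hT' : ∀ i, (T ∘ E.symm) (E (i, true)) = X.σ i := fun i => by
    simp only [Function.comp_apply, Equiv.symm_apply_apply, T, cond]
  have key := hdd k D (Fin m → D) (T ∘ E.symm) y.toLinearMapRight' χ 1 rfl
    (by rw [LinearMap.charpoly_natDegree, ← finrank_mul_finrank k K, hs, finrank_pi_fintype,
      Finset.sum_const, Finset.card_univ, Fintype.card_fin, hD, ← hn, smul_eq_mul]; ring)
    (fun j => by
      refine (isIntegral_algHom_iff (X.σ i₀).toIntAlgHom (X.σ i₀).injective).1 ?_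
      have h1 : (X.σ i₀).toIntAlgHom (χ.coeff j) = (χ.map (X.σ i₀)).coeff j := (coeff_map _ _).symm
      rw [h1]
      refine isIntegral_coeff_of_factors _
        (by rw [(hχ.map _).leadingCoeff]; exact isIntegral_one) (IsAlgClosed.splits _)
        (fun w hw => ?_) j
      obtain ⟨t, -, h2⟩ := hmem _ w ((mem_roots (hχ.map _).ne_zero).2 hw)
      exact (hy t).integral (fun u hu => isIntegral_of_root _ hm hint hu) w h2)
    (fun σ hσ w hw => by
      obtain ⟨t, rfl, h2⟩ := hmem σ w hw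
      refine (hy t).circle (fun u hu => circ (X.neg _ fun i hi => hσ ?_) ((Group.isUnit _).map F)
        (hlie _) hu) w h2
      rw [E.symm.surjective.range_comp]
      rcases InfinitePlace.mk_eq_iff.1 hi.symm with h3 | h3
      · exact ⟨(i, true), h3⟩
      · exact ⟨(i, false), h3⟩)
    (fun j z hz => by
      obtain ⟨w, hw, h1⟩ := SU.main_conj hχ.ne_zero (hT j) hz
      obtain ⟨t, h2, h3⟩ := hmem _ w hw
      refine ⟨norm_ne_zero_iff.1 (h1 ▸ norm_ne_zero_iff.2 ((hy t).ne_zero h3)), h1 ▸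
        ((hy t).bound hR.le (fun u hu => hb _ u (h2 ▸ hu)) w h3).trans ?_⟩
      rw [← Real.exp_nat_mul, Real.exp_le_exp, mul_one, mul_div_assoc', div_le_iff₀ (by positivity)]
      nlinarith)
    (by
      rintro ⟨j, z, hz, hz1⟩
      obtain ⟨w, hw, h1⟩ := SU.main_conj hχ.ne_zero (hT j) hz
      generalize (E.symm j).1 = i at hw
      obtain ⟨e, e', he⟩ := res_id (hρ' i)
      obtain ⟨Y, hY, h2, h3⟩ := hyp (hA.fac i).lie ((hA.fac i).aut a.1) ((Group.isUnit _).map (π i))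
        (fun p => X.φ i (e p)) (fun p => X.φ i (e' p)) (fun p => X.mem i _)
        (fun p M => by
          rw [← map_pow, ← Subgroup.coe_pow, ← hF']
          exact X.mem i _) he (ν i) (hν i).lie (fun j => ρ (τ i j) y) fun j =>
        ⟨(hy _).det, fun Z => LinearMap.congr_fun (LinearMap.ext_on_range
          (f := LinearMap.mulLeft ℂ (ρ (τ i j) y) ∘ₗ ν i j)
          (g := LinearMap.mulRight ℂ (ρ (τ i j) y) ∘ₗ ν i j ∘ₗ π i a.1) (X.span i) fun x => by
            have h4 := (hy (τ i j)).comm x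
            simp only [LinearMap.comp_apply, LinearMap.mulLeft_apply, LinearMap.mulRight_apply,
              ← hF', ← happ]
            exact h4) Z, top_le_iff.1 ((hy (τ i j)).gen.ge.trans (Algebra.adjoin_mono (by
          rintro _ ⟨x, rfl⟩
          exact ⟨_, (happ i j x).symm⟩)))⟩
      rw [hroots _ _ (hτ i) (hres i), Multiset.mem_sum] at hw
      obtain ⟨j', -, hw⟩ := hw
      obtain ⟨μ, hμ, h4⟩ := (hν i).mult Y hY (by
        rintro rfl
        have h5 : (Real.log ‖w‖ : ℂ) ∈ (ν i j' 0).charpoly.roots :=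
          h3 j' ▸ Multiset.mem_map_of_mem _ (Multiset.mem_of_mem_nsmul hw)
        rw [map_zero, Matrix.charpoly_zero, roots_pow, roots_X] at h5
        have h6 := Multiset.mem_singleton.1 (Multiset.mem_of_mem_nsmul h5)
        exact (Real.log_pos (h1 ▸ hz1)).ne' (Complex.ofReal_eq_zero.1 h6)) h2
      refine ⟨E (i, true), Real.exp μ, Real.one_lt_exp_iff.2 hμ, fun h5 => h4 ?_⟩
      have h6 : ∀ j, ((ρ (τ i j) y).charpoly.roots.filter fun z => ‖z‖ = Real.exp μ).card =
          (ν i j Y).charpoly.rootMultiplicity (μ : ℂ) := fun j => by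
        rw [← count_roots, h3, Multiset.count_map]
        refine congrArg _ (Multiset.filter_congr fun z hz => ?_)
        rw [Complex.ofReal_inj]
        exact ⟨fun h7 => by rw [h7, Real.log_exp],
          fun h7 => by rw [h7, Real.exp_log (norm_pos_iff.2 ((hy _).ne_zero hz))]⟩
      rw [hT', hroots _ _ (hτ i) (hres i), ← finrank_mul_finrank k K, hs, hD,
        ← Multiset.countP_eq_card_filter, ← Multiset.coe_countPAddMonoidHom, map_sum] at h5
      simp only [Multiset.coe_countPAddMonoidHom, Multiset.countP_eq_card_filter,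
        Multiset.filter_nsmul, Multiset.card_nsmul, h6, ← Finset.mul_sum] at h5
      rwa [sq, ← mul_assoc, mul_left_comm, mul_comm, Nat.mul_dvd_mul_iff_left hd0] at h5)
    zero_le_one (by rw [one_pow]; exact_mod_cast finrank_pos) (E (i₀, true))
  obtain ⟨M, hM, hnil⟩ := exists_pow_nilpotent (ρ (τ i₀ j₀) y) fun z hz => key z (by
    rw [hT', hroots _ _ (hτ i₀) (hres i₀), Multiset.mem_sum]
    exact ⟨j₀, Finset.mem_univ _, (Multiset.mem_nsmul_of_ne_zero hd0.ne').2
      ((mem_roots (Matrix.charpoly_monic _).ne_zero).2 hz)⟩)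
  have h1 : F (a ^ M) = 1 := by
    by_contra h0
    obtain ⟨x, z, hx, hz⟩ := unip (hlie _) (map_pow F a M ▸ ((hy (τ i₀ j₀)).pow M).nilpotent
      (fun x z h2 => (hρ' i₀).inj ((hν i₀).inj j₀
        ((happ i₀ j₀ x).symm.trans (h2.trans (happ i₀ j₀ z))))) hnil) h0
    exact hx (aniso hA X hρ' hF hΛ hz)
  refine IsOfFinOrder.of_pow (n := 2 * n * n) (IsOfFinOrder.of_pow (hker _ fun i => ?_) hM.ne')
    (by positivity)
  exact (hF i (a ^ M)).symm.trans (by rw [h1, map_one])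

end Pool.Agent.Lib.MP_162bbe_gt.Ti
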