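import Mathlib

/-! Eigenvalues of a matrix that normalises a generating subspace. -/

namespace Pool.Agent.Lib.MP_162bbe_gt.Ti

open Module Polynomial

theorem gen_mul {A B C : Type} [AddCommGroup A] [Module ℂ A] [AddCommGroup B] [Module ℂ B]
    [AddCommGroup C] [Module ℂ C] (β : A →ₗ[ℂ] B →ₗ[ℂ] C) {a : End ℂ A} {b : End ℂ B} {c : End ℂ C}
    (h : ∀ x y, c (β x y) = β (a x) (b y)) {u v : ℂ} {x : A} {y : B}
    (hx : x ∈ a.maxGenEigenspace u) (hy : y ∈ b.maxGenEigenspace v) :
    β x y ∈ c.maxGenEigenspace (u * v) := by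
  obtain ⟨i, hi⟩ := (End.mem_maxGenEigenspace _ _ _).1 hx
  obtain ⟨j, hj⟩ := (End.mem_maxGenEigenspace _ _ _).1 hy
  refine (End.mem_maxGenEigenspace _ _ _).2 ⟨i + j, ?_⟩
  clear hx hy
  induction i generalizing j x y with
  | zero => simp [show x = 0 from hi]
  | succ i ih =>
    induction j generalizing y with
    | zero => simp [show y = 0 from hj]
    | succ j ih' =>
      have h1 : (c - (u * v) • 1) (β x y) =
          β ((a - u • 1) x) (b y) + u • β x ((b - v • 1) y) := by
        simp [h, smul_sub, mul_smul]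
      have h2 : Commute ((b - v • 1) ^ (j + 1)) b :=
        ((Commute.refl b).sub_left ((Commute.one_left b).smul_left v)).pow_left _
      rw [← add_assoc, pow_succ, End.mul_apply, h1, map_add, map_smul, ih' (by
        rwa [pow_succ, End.mul_apply] at hj), smul_zero, add_zero, add_right_comm, add_assoc]
      exact ih (by rwa [pow_succ, End.mul_apply] at hi) _ (by
        rw [← End.mul_apply, h2.eq, End.mul_apply, hj, map_zero])

variable {k L : Type} [Field k] [AddCommGroup L] [Module k L] [Module.Finite k L] {n : ℕ}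

/-- `T` has determinant one and induces `f` on the generating set `θ L`. -/
structure Itw (s : k →+* ℂ) (f : End k L) (θ : L →ₛₗ[s] Matrix (Fin n) (Fin n) ℂ)
    (T : Matrix (Fin n) (Fin n) ℂ) : Prop where
  det : T.det = 1
  comm : ∀ x, T * θ x = θ (f x) * T
  gen : Algebra.adjoin ℂ (Set.range θ) = ⊤

variable {s : k →+* ℂ} {f : End k L} {θ : L →ₛₗ[s] Matrix (Fin n) (Fin n) ℂ}
  {T : Matrix (Fin n) (Fin n) ℂ}

theorem gen_root {z : ℂ} : z ∈ T.charpoly.roots ↔ End.maxGenEigenspace T.toLin' z ≠ ⊥ := by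
  rw [mem_roots T.charpoly_monic.ne_zero, ← Matrix.charpoly_toLin',
    ← End.hasEigenvalue_iff_isRoot_charpoly]
  exact (End.hasUnifEigenvalue_iff_hasUnifEigenvalue_one (k := ⊤) (by simp)).symm

omit [Module.Finite k L] in
theorem gen_aeval {φ : End ℂ (Matrix (Fin n) (Fin n) ℂ)} (h : ∀ x, φ (θ x) = θ (f x)) (p : k[X])
    (x : L) : aeval φ (p.map s) (θ x) = θ (aeval f p x) := by
  induction p using Polynomial.induction_on generalizing x with
  | C c => simp [LinearMap.map_smulₛₗ]
  | add p q hp hq => simp [hp, hq]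
  | monomial m c ih =>
    rw [pow_succ, ← mul_assoc, Polynomial.map_mul, map_mul, map_mul _ _ X, map_X, aeval_X, aeval_X,
      End.mul_apply, End.mul_apply, h, ih]

theorem Itw.stab (h : Itw s f θ T) (S : Set ℂ)
    (hS : ∀ z ∈ S, ∀ u, eval₂ s u f.charpoly = 0 → u * z ∈ T.charpoly.roots → u * z ∈ S) {z : ℂ}
    (hz : z ∈ T.charpoly.roots) (hzS : z ∈ S) : ∀ w ∈ T.charpoly.roots, w ∈ S := by
  have hu : IsUnit T.det := h.det ▸ isUnit_one
  let φ : End ℂ (Matrix (Fin n) (Fin n) ℂ) := LinearMap.mulRight ℂ T⁻¹ ∘ₗ LinearMap.mulLeft ℂ T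
  have hφ : ∀ M, φ M = T * M * T⁻¹ := fun _ => rfl
  let W := ⨆ z ∈ S, End.maxGenEigenspace T.toLin' z
  let E := LinearMap.ker (aeval φ (f.charpoly.map s))
  have h1 : ∀ M ∈ E, ∀ v ∈ W, M.toLin' v ∈ W := fun M hM => by
    rw [Submodule.eq_iSup_inf_genEigenspace (p := E) (f := φ) ⊤ (fun N hN => by
      have h1 := congrArg (aeval φ) (mul_comm (f.charpoly.map s) X)
      rw [map_mul, map_mul, aeval_X] at h1
      rw [LinearMap.mem_ker, ← End.mul_apply, h1, End.mul_apply, LinearMap.mem_ker.1 hN,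
        map_zero]) (End.iSup_maxGenEigenspace_eq_top φ)] at hM
    induction hM using Submodule.iSup_induction' with
    | zero => simp
    | add M N _ _ hM hN => exact fun v hv => by simpa using add_mem (hM v hv) (hN v hv)
    | mem u M hM =>
      by_cases h0 : M = 0
      · simp [h0]
      have h2 : eval₂ s u f.charpoly = 0 := by
        by_contra h2
        obtain ⟨i, hi⟩ := (End.mem_maxGenEigenspace _ _ _).1 hM.2
        refine h0 ((Submodule.disjoint_def.1 (disjoint_ker_aeval_of_isCoprime φ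
          (((irreducible_X_sub_C u).coprime_iff_not_dvd.2 fun e => h2 ?_).pow_left (m := i))))
          M ?_ hM.1)
        · exact (eval₂_eq_eval_map s).trans (dvd_iff_isRoot.1 e)
        · simpa [Algebra.algebraMap_eq_smul_one] using hi
      refine fun v hv => (iSup₂_le fun y hy v hv => ?_ : W ≤ W.comap M.toLin') hv
      have h3 := gen_mul Matrix.toLin'.toLinearMap (a := φ) (b := T.toLin') (c := T.toLin')
        (fun N v => by
          simp [hφ, mul_assoc, Matrix.nonsing_inv_mul _ hu]) hM.2 hv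
      by_cases h4 : End.maxGenEigenspace T.toLin' (u * y) = ⊥
      · rw [h4] at h3
        exact (bot_le : _ ≤ W) h3
      · exact (le_iSup₂_of_le _ (hS y hy u h2 (gen_root.2 h4)) le_rfl : _ ≤ W) h3
  have h2 : ∀ M : Matrix (Fin n) (Fin n) ℂ, ∀ v ∈ W, M.toLin' v ∈ W := fun M => by
    have hM : M ∈ Algebra.adjoin ℂ (Set.range θ) := h.gen ▸ Algebra.mem_top
    induction hM using Algebra.adjoin_induction with
    | mem M hM =>
      obtain ⟨x, rfl⟩ := hM
      refine h1 _ (LinearMap.mem_ker.2 ?_)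
      rw [gen_aeval (fun x => by rw [hφ, h.comm, Matrix.mul_nonsing_inv_cancel_right _ _ hu]),
        LinearMap.aeval_self_charpoly, LinearMap.zero_apply, map_zero]
    | algebraMap c => exact fun v hv => by simpa [Algebra.algebraMap_eq_smul_one] using W.smul_mem c hv
    | add M N _ _ hM hN => exact fun v hv => by simpa using add_mem (hM v hv) (hN v hv)
    | mul M N _ _ hM hN => exact fun v hv => by simpa using hM _ (hN v hv)
  intro w hw
  by_contra hwS
  obtain ⟨v, hv, v0⟩ := (Submodule.ne_bot_iff _).1 (gen_root.1 hz)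
  obtain ⟨y, hy, y0⟩ := (Submodule.ne_bot_iff _).1 (gen_root.1 hw)
  obtain ⟨l, hl⟩ := Projective.exists_dual_eq_one ℂ v0
  refine y0 (Submodule.disjoint_def.1
    ((End.independent_maxGenEigenspace T.toLin').disjoint_biSup hwS) y hy ?_)
  simpa [hl] using h2 (LinearMap.toMatrix' (l.smulRight y)) v
    ((le_iSup₂_of_le z hzS le_rfl : _ ≤ W) hv)

omit [Module.Finite k L] in
theorem Itw.prod (h : Itw s f θ T) : T.charpoly.roots.prod = 1 :=
  T.det_eq_prod_roots_charpoly.symm.trans h.det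

theorem gen_card (T : Matrix (Fin n) (Fin n) ℂ) : T.charpoly.roots.card = n := by
  rw [← (IsAlgClosed.splits _).natDegree_eq_card_roots, Matrix.charpoly_natDegree_eq_dim,
    Fintype.card_fin]

theorem Itw.bound (h : Itw s f θ T) {R : ℝ} (hR : 1 ≤ R)
    (hf : ∀ u, eval₂ s u f.charpoly = 0 → ‖u‖ ≤ R) : ∀ w ∈ T.charpoly.roots, ‖w‖ ≤ R ^ n := by
  classical
  intro w hw
  obtain ⟨z, hz, h1⟩ : ∃ z ∈ T.charpoly.roots, ‖z‖ ≤ 1 := by
    by_contra! h1
    simpa [h.prod] using Multiset.prod_induction_nonempty (fun x : ℂ => 1 < ‖x‖)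
      (fun a b ha hb => norm_mul a b ▸ one_lt_mul_of_le_of_lt ha.le hb)
      (Multiset.card_pos.1 (Multiset.card_pos_iff_exists_mem.2 ⟨w, hw⟩)) h1
  have key : ∀ j, ‖w‖ ≤ R ^ j ∨ j < (T.charpoly.roots.toFinset.filter (‖·‖ ≤ R ^ j)).card := by
    intro j
    induction j with
    | zero => exact Or.inr (Finset.card_pos.2 ⟨z, by simpa using ⟨by simpa using hz, h1⟩⟩)
    | succ j ih =>
      have h2 : R ^ j ≤ R ^ (j + 1) := pow_le_pow_right₀ hR j.le_succ
      refine ih.elim (fun h3 => Or.inl (h3.trans h2)) fun h3 => ?_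
      refine or_iff_not_imp_right.2 fun h4 => ?_
      have h5 := Finset.eq_of_subset_of_card_le
        (Finset.monotone_filter_right T.charpoly.roots.toFinset
          (fun x _ (hx : ‖x‖ ≤ R ^ j) => hx.trans h2)) (by omega)
      refine (h.stab {x | ‖x‖ ≤ R ^ j} (fun y hy u hu h6 => ?_) hz
        (h1.trans (one_le_pow₀ hR)) w hw).trans h2
      refine (Finset.mem_filter.1 (h5.ge (Finset.mem_filter.2 ⟨Multiset.mem_toFinset.2 h6, ?_⟩))).2
      rw [norm_mul, pow_succ']
      exact mul_le_mul (hf u hu) hy (norm_nonneg _) (zero_le_one.trans hR)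
  exact (key n).resolve_right (not_lt.2 ((Finset.card_filter_le _ _).trans
    ((Multiset.toFinset_card_le _).trans (gen_card T).le)))

theorem Itw.circle (h : Itw s f θ T) (hf : ∀ u, eval₂ s u f.charpoly = 0 → ‖u‖ = 1) :
    ∀ w ∈ T.charpoly.roots, ‖w‖ = 1 := fun w hw => by
  refine le_antisymm ((h.bound le_rfl (fun u hu => (hf u hu).le) w hw).trans_eq (one_pow n))
    (not_lt.1 fun h1 => ?_)
  simpa [h.prod] using Multiset.prod_induction_nonempty (fun x : ℂ => ‖x‖ < 1)
    (fun a b ha hb => norm_mul a b ▸ mul_lt_one_of_nonneg_of_lt_one_left (norm_nonneg _) ha hb.le)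
    (Multiset.card_pos.1 (Multiset.card_pos_iff_exists_mem.2 ⟨w, hw⟩))
    (h.stab {x | ‖x‖ < 1} (fun y hy u hu _ => by simpa [hf u hu] using hy) hw h1)

theorem Itw.integral (h : Itw s f θ T) (hf : ∀ u, eval₂ s u f.charpoly = 0 → IsIntegral ℤ u) :
    ∀ w ∈ T.charpoly.roots, IsIntegral ℤ w := fun w hw => by
  refine IsIntegral.of_pow (Multiset.card_pos_iff_exists_mem.2 ⟨w, hw⟩) ?_
  have h1 := IsIntegral.multiset_prod (R := ℤ) (s := T.charpoly.roots.map fun z => w / z)
    (Multiset.forall_mem_map_iff.2 fun z hz => h.stab {x | IsIntegral ℤ (x / z)}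
      (fun y hy u hu _ => by simpa [mul_div_assoc] using (hf u hu).mul hy) hz (by
        by_cases h0 : z = 0
        · simpa [h0] using isIntegral_zero
        · simpa [h0] using isIntegral_one) w hw)
  rwa [Multiset.prod_map_div, Multiset.map_id', h.prod, div_one, Multiset.map_const',
    Multiset.prod_replicate] at h1

theorem Itw.nilpotent (h : Itw s f θ T) (hθ : Function.Injective θ) (hT : IsNilpotent (T - 1)) :
    IsNilpotent (f - 1) := by
  obtain ⟨N, hN⟩ := (LinearMap.commute_mulLeft_right (R := ℂ) (T - 1) (T - 1)).isNilpotent_sub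
    ((LinearMap.isNilpotent_mulLeft_iff _ _).2 hT) ((LinearMap.isNilpotent_mulRight_iff _ _).2 hT)
  have h1 : ∀ (m : ℕ) x, θ (((f - 1) ^ m) x) * T ^ m =
      ((LinearMap.mulLeft ℂ (T - 1) - LinearMap.mulRight ℂ (T - 1)) ^ m) (θ x) := fun m x => by
    induction m with
    | zero => simp
    | succ m ih =>
      rw [pow_succ', pow_succ' (_ - _), End.mul_apply, End.mul_apply, ← ih, pow_succ']
      simp [sub_mul, mul_sub, ← mul_assoc, h.comm, mul_assoc (θ _) (T ^ m) T, ← pow_succ,
        mul_assoc (θ _) T (T ^ m), ← pow_succ']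
  refine ⟨N, LinearMap.ext fun x => hθ ?_⟩
  have h2 := h1 N x
  rw [hN, LinearMap.zero_apply, (((Matrix.isUnit_iff_isUnit_det T).2
    (h.det ▸ isUnit_one)).pow N).mul_left_eq_zero] at h2
  rw [h2, LinearMap.zero_apply, map_zero]

theorem Itw.pow (h : Itw s f θ T) (N : ℕ) : Itw s (f ^ N) θ (T ^ N) := by
  refine ⟨by rw [Matrix.det_pow, h.det, one_pow], fun x => ?_, h.gen⟩
  induction N with
  | zero => simp
  | succ N ih => rw [pow_succ', pow_succ', mul_assoc, ih, ← mul_assoc, h.comm, mul_assoc, End.mul_apply]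

end Pool.Agent.Lib.MP_162bbe_gt.Ti
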