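import Pool.Agent.Lib.MP_162bbe_gt.Ti.ExA

/-! The triality weights of `so(7,1)`. -/

namespace Pool.Agent.Lib.MP_162bbe_gt.Ti

open Module Polynomial Matrix

/-- Square matrices of size eight. -/
abbrev M8 : Type := Matrix (Fin 8) (Fin 8) ℂ

theorem tri_ind {P : M8 → Prop} (ha : ∀ A B, P A → P B → P (A + B))
    (hv : ∀ u v, P (vecMulVec u v)) (A : M8) : P A :=
  A.induction_on' (by simpa using hv 0 0) ha fun i j x => by
    have := hv (x • Pi.single i 1) (Pi.single j 1)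
    rwa [smul_vecMulVec, ← single_eq_single_vecMulVec_single, smul_single, smul_eq_mul,
      mul_one] at this

/-- The Clifford relations. -/
def Clf (p q : (Fin 8 → ℂ) →ₗ[ℂ] M8) : Prop :=
  ∀ u v, p u * q v + p v * q u = (2 * u ⬝ᵥ v) • 1 ∧ q u * p v + q v * p u = (2 * u ⬝ᵥ v) • 1

/-- The half-spin representation. -/
noncomputable def spin (p q : (Fin 8 → ℂ) →ₗ[ℂ] M8) : M8 →ₗ[ℂ] M8 where
  toFun A := (4⁻¹ : ℂ) • ∑ a, p (Pi.single a 1) * q (A a)
  map_add' A B := by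
    rw [← smul_add, ← Finset.sum_add_distrib]
    exact congrArg _ (Finset.sum_congr rfl fun a _ => by rw [← mul_add, ← map_add]; rfl)
  map_smul' c A := by
    rw [RingHom.id_apply, smul_comm c, Finset.smul_sum (r := c)]
    exact congrArg _ (Finset.sum_congr rfl fun a _ => by rw [← mul_smul_comm, ← map_smul]; rfl)

variable {p q : (Fin 8 → ℂ) →ₗ[ℂ] M8} {A B : M8} {u v : Fin 8 → ℂ}

theorem Clf.symm (h : Clf p q) : Clf q p := fun u v => (h u v).symm

theorem spin_vec (u v : Fin 8 → ℂ) : spin p q (vecMulVec u v) = (4⁻¹ : ℂ) • (p u * q v) := by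
  refine congrArg (fun M : M8 => (4⁻¹ : ℂ) • M) ?_
  conv_rhs => rw [pi_eq_sum_univ' u, map_sum, Finset.sum_mul]
  refine Finset.sum_congr rfl fun a _ => ?_
  rw [map_smul, smul_mul_assoc, ← mul_smul_comm, ← map_smul]
  rfl

theorem Clf.comm (h : Clf p q) (hA : Aᵀ = -A) (w : Fin 8 → ℂ) :
    spin p q A * p w = p (A *ᵥ w) + p w * spin q p A := by
  have h1 : ∀ B : M8, spin p q (B - Bᵀ) * p w = p ((B - Bᵀ) *ᵥ w) + p w * spin q p (B - Bᵀ) := by
    refine tri_ind (fun B C hB hC => ?_) fun u v => ?_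
    · rw [transpose_add, add_sub_add_comm, map_add, map_add, add_mul, hB, hC, add_mulVec, map_add,
        mul_add, add_add_add_comm]
    · have h2 : ∀ x y, p x * q y * p w =
          (2 * y ⬝ᵥ w) • p x - (2 * x ⬝ᵥ w) • p y + p w * (q x * p y) := fun x y => by
        rw [mul_assoc, eq_sub_of_add_eq (h y w).2, mul_sub, ← mul_assoc, eq_sub_of_add_eq (h x w).1]
        simp only [mul_smul_comm, smul_mul_assoc, mul_one, one_mul, sub_mul, mul_assoc]
        abel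
      simp only [transpose_vecMulVec, map_sub, spin_vec, sub_mul, smul_mul_assoc, h2, sub_mulVec,
        vecMulVec_mulVec, op_smul_eq_smul, map_smul, mul_sub, mul_smul_comm]
      module
  have h2 := h1 ((2⁻¹ : ℂ) • A)
  rwa [transpose_smul, hA, smul_neg, sub_neg_eq_add, ← add_smul, ← two_mul,
    mul_inv_cancel₀ two_ne_zero, one_smul] at h2

theorem Clf.lie (h : Clf p q) (hA : Aᵀ = -A) (B : M8) :
    spin p q (A * B - B * A) = spin p q A * spin p q B - spin p q B * spin p q A := by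
  induction B using tri_ind with
  | ha B C hB hC =>
    rw [mul_add, add_mul, add_sub_add_comm, map_add, hB, hC, map_add, mul_add, add_mul,
      add_sub_add_comm]
  | hv u v =>
    rw [mul_vecMulVec, vecMulVec_mul, ← mulVec_transpose, hA, neg_mulVec, map_sub, spin_vec,
      spin_vec, spin_vec, mul_smul_comm, ← mul_assoc, h.comm hA, add_mul, mul_assoc, h.symm.comm hA]
    simp only [map_neg, mul_neg, mul_add, smul_mul_assoc, mul_assoc]
    module

theorem Clf.sq (h : Clf p q) (hu : u ⬝ᵥ u = 0) (hv : v ⬝ᵥ v = 0) (e : u ⬝ᵥ v = 1) :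
    spin p q (vecMulVec u v - vecMulVec v u) ^ 2 = (4⁻¹ : ℂ) • 1 := by
  have h1 : ∀ x y z, y ⬝ᵥ y = 0 → p x * q y * (p y * q z) = 0 := fun x y z hy => by
    have h2 := (h y y).2
    rw [hy, mul_zero, zero_smul, ← two_smul ℂ, smul_eq_zero_iff_right two_ne_zero] at h2
    rw [mul_assoc, ← mul_assoc (q y), h2, zero_mul, mul_zero]
  have h2 := (h u v).1
  rw [e, mul_one] at h2
  have h3 : (p u * q v - p v * q u) ^ 2 = (p u * q v + p v * q u) ^ 2 := by
    simp only [_root_.sq, mul_sub, sub_mul, mul_add, add_mul, h1 _ _ _ hu, h1 _ _ _ hv]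
    abel
  rw [map_sub, spin_vec, spin_vec, ← smul_sub, _root_.smul_pow, h3, h2, _root_.smul_pow, one_pow,
    smul_smul]
  norm_num

/-- The octonion multiplication table. -/
def oct (a i k : Fin 8) : ℤ :=
  if a.1 ^^^ k.1 = i.1 then (if (12887178008817199616 >>> (8 * a.1 + k.1)) % 2 = 1 then -1 else 1)
  else 0

theorem oct_rel : ∀ a b i j : Fin 8,
    ∑ k, (oct a i k * oct b j k + oct b i k * oct a j k) = (if a = b ∧ i = j then 2 else 0) ∧
    ∑ k, (oct a k i * oct b k j + oct b k i * oct a k j) = if a = b ∧ i = j then 2 else 0 := by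
  decide +kernel

theorem tri_bil (G H : Fin 8 → M8) (h : ∀ a b, G a * H b + G b * H a = if a = b then 2 else 0)
    (u v : Fin 8 → ℂ) : Fintype.linearCombination ℂ G u * Fintype.linearCombination ℂ H v +
      Fintype.linearCombination ℂ G v * Fintype.linearCombination ℂ H u = (2 * u ⬝ᵥ v) • 1 := by
  simp only [Fintype.linearCombination_apply, Finset.sum_mul_sum, smul_mul_smul_comm]
  rw [Finset.sum_comm (f := fun a b => (v a * u b) • (G a * H b)), ← Finset.sum_add_distrib,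
    dotProduct, Finset.mul_sum, Finset.sum_smul]
  refine Finset.sum_congr rfl fun a _ => ?_
  rw [← Finset.sum_add_distrib, Finset.sum_eq_single a (fun b _ hb => by
    rw [mul_comm (v b), ← smul_add, h, if_neg hb.symm, smul_zero]) (by simp), mul_comm (v a),
    ← smul_add, h, if_pos rfl, mul_comm 2, mul_smul _ 2, two_smul, one_add_one_eq_two]

theorem exists_clf : ∃ p q, Clf p q := by
  refine ⟨Fintype.linearCombination ℂ fun a => of fun i k => oct a i k,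
    Fintype.linearCombination ℂ fun a => of fun i k => oct a k i, fun u v =>
    ⟨tri_bil _ _ (fun a b => ?_) u v, tri_bil _ _ (fun a b => ?_) u v⟩⟩ <;> ext i j
  · have := congrArg (Int.cast : ℤ → ℂ) (oct_rel a b i j).1
    by_cases e : a = b <;> simpa [mul_apply, Finset.sum_add_distrib, ofNat_apply, e] using this
  · have := congrArg (Int.cast : ℤ → ℂ) (oct_rel a b i j).2
    by_cases e : a = b <;> simpa [mul_apply, Finset.sum_add_distrib, ofNat_apply, e] using this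

theorem tri_pair (hA : Aᵀ = -A) {a b : ℂ} (hu : A *ᵥ u = a • u) (hv : A *ᵥ v = b • v) :
    a + b = 0 ∨ u ⬝ᵥ v = 0 := by
  have h := dotProduct_mulVec u A v
  rw [← mulVec_transpose, hA, neg_mulVec, hu, hv, neg_dotProduct, smul_dotProduct,
    dotProduct_smul, eq_neg_iff_add_eq_zero, ← add_smul, smul_eq_zero, add_comm] at h
  exact h

theorem tri_top {W : Submodule ℂ (Fin 8 → ℂ)} (hW : ∀ B : M8, Bᵀ = -B → ∀ x ∈ W, B *ᵥ x ∈ W)
    (hv : v ∈ W) (h0 : v ≠ 0) : W = ⊤ := by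
  have h1 : ∀ x ∈ W, x ≠ 0 → ∀ w, w ⬝ᵥ x = 0 → w ∈ W := fun x hx x0 w hw => by
    obtain ⟨i, hi⟩ := Function.ne_iff.1 x0
    have := W.smul_mem (x i)⁻¹ (hW (vecMulVec w (Pi.single i 1) - vecMulVec (Pi.single i 1) w)
      (by simp [transpose_vecMulVec]) x hx)
    simpa [sub_mulVec, vecMulVec_mulVec, hw, smul_smul, inv_mul_cancel₀ (show x i ≠ 0 from hi)]
      using this
  refine eq_top_iff.2 fun w _ => ?_
  obtain ⟨x, hx, x0⟩ := (Submodule.ne_bot_iff _).1 (LinearMap.ker_ne_bot_of_finrank_lt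
    (f := (of ![v, w]).mulVecLin) (by simp))
  exact h1 x (h1 v hv h0 x ((dotProduct_comm _ _).trans (congrFun hx 0))) x0 w (congrFun hx 1)

theorem tri_ex {W : ℝ → Submodule ℂ (Fin 8 → ℂ)} (hW : ⨆ μ, W μ = ⊤) (h0 : v ≠ 0) :
    ∃ μ, ∃ w ∈ W μ, v ⬝ᵥ w ≠ 0 := by
  by_contra! h
  refine h0 (dotProduct_eq_zero v fun w => ?_)
  exact (iSup_le h : _ ≤ LinearMap.ker (dotProductBilin ℂ ℂ v)) (hW ▸ Submodule.mem_top)

variable {g : Type} [LieRing g] [LieAlgebra ℂ g] {ν : g →ₗ[ℂ] M8} {X : g}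

theorem tri_diag (lie : ∀ X Y, ν ⁅X, Y⁆ = ν X * ν Y - ν Y * ν X)
    (rng : ∀ A, A ∈ LinearMap.range ν ↔ Aᵀ = -A)
    (hX : ⨆ μ : ℝ, End.eigenspace (LieAlgebra.ad ℂ g X) μ = ⊤) :
    ⨆ μ : ℝ, End.eigenspace (ν X).toLin' μ = ⊤ := by
  obtain ⟨c, hc⟩ := End.exists_eigenvalue (ν X).toLin'
  obtain ⟨v, hv, v0⟩ := hc.exists_hasEigenvector
  have h1 : ⨆ μ : ℝ, End.eigenspace (ν X).toLin' (c + μ) = ⊤ := by
    refine tri_top (fun B hB => ?_) (le_iSup (fun μ : ℝ => End.eigenspace (ν X).toLin' (c + μ)) 0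
      (by simpa using hv)) v0
    obtain ⟨Y, rfl⟩ := (rng B).2 hB
    have hY : Y ∈ ⨆ μ : ℝ, End.eigenspace (LieAlgebra.ad ℂ g X) μ := hX ▸ Submodule.mem_top
    clear hB
    induction hY using Submodule.iSup_induction' with
    | zero => simp
    | add Y Z _ _ hY hZ => exact fun x hx => by simpa [add_mulVec] using add_mem (hY x hx) (hZ x hx)
    | mem μ Y hY =>
      refine fun x hx => Submodule.mem_comap.1
        ((iSup_le fun b x hx => ?_ : _ ≤ Submodule.comap (ν Y).toLin' _) hx)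
      refine le_iSup (fun μ : ℝ => End.eigenspace (ν X).toLin' (c + μ)) (b + μ) ?_
      have h2 := congrArg (ν · *ᵥ x) (End.mem_eigenspace_iff.1 hY)
      have h3 : ν X *ᵥ x = _ := End.mem_eigenspace_iff.1 hx
      simp only [LieAlgebra.ad_apply, lie, sub_mulVec, ← mulVec_mulVec, h3, map_smul, smul_mulVec,
        mulVec_smul, sub_eq_iff_eq_add] at h2
      refine End.mem_eigenspace_iff.2 (h2.trans ?_)
      rw [← add_smul, Complex.ofReal_add, add_comm (μ : ℂ), add_assoc]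
      rfl
  obtain ⟨μ, w, hw, h2⟩ := tri_ex h1 v0
  have h3 := (tri_pair ((rng _).1 ⟨X, rfl⟩) (End.mem_eigenspace_iff.1 hv)
    (End.mem_eigenspace_iff.1 hw)).resolve_right h2
  refine top_le_iff.1 (h1.ge.trans (iSup_le fun b => le_iSup_of_le (b - μ / 2) (le_of_eq ?_)))
  congr 1
  push_cast
  linear_combination h3 / 2

/-- The form of signature `(7,1)`. -/
def lor : M8 := diagonal fun i => if i = 0 then -1 else 1

open scoped ComplexOrder in
theorem tri_line (hJ : Aᴴ * lor = -(lor * A)) {a b : ℝ} (hu : A *ᵥ u = (a : ℂ) • u)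
    (hv : A *ᵥ v = (b : ℂ) • v) (h0 : u ≠ 0) (hab : 0 < a * b) : ∃ c : ℂ, v = c • u := by
  have h1 : ∀ {x y : Fin 8 → ℂ} {a b : ℝ}, A *ᵥ x = (a : ℂ) • x → A *ᵥ y = (b : ℂ) • y →
      0 < a * b → star x ⬝ᵥ lor *ᵥ y = 0 := fun {x y a b} hx hy hab => by
    have h := congrArg (fun M => star x ⬝ᵥ M *ᵥ y) hJ
    simp only [← mulVec_mulVec, neg_mulVec, hy, mulVec_smul, dotProduct_neg, dotProduct_smul] at h
    rw [dotProduct_mulVec, ← star_mulVec, hx, star_smul, smul_dotProduct, Complex.star_def,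
      Complex.conj_ofReal, eq_neg_iff_add_eq_zero, ← add_smul, smul_eq_zero] at h
    refine h.resolve_left fun e => ?_
    have : a + b = 0 := by exact_mod_cast e
    rw [eq_neg_of_add_eq_zero_right this] at hab
    nlinarith [sq_nonneg a]
  have h2 : ∀ x : Fin 8 → ℂ, x 0 = 0 → star x ⬝ᵥ lor *ᵥ x = 0 → x = 0 := fun x x0 hx => by
    have : lor *ᵥ x = x := funext fun i => by
      by_cases e : i = 0 <;> simp [lor, mulVec_diagonal, e, x0]
    exact dotProduct_star_self_eq_zero.1 (by rwa [this] at hx)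
  have ha : 0 < a * a := mul_self_pos.2 (left_ne_zero_of_mul hab.ne')
  have hb : 0 < b * b := mul_self_pos.2 (right_ne_zero_of_mul hab.ne')
  have u0 : u 0 ≠ 0 := fun e => h0 (h2 u e (h1 hu hu ha))
  refine ⟨v 0 / u 0, sub_eq_zero.1 (h2 _ (by simp [u0]) ?_)⟩
  simp only [star_sub, star_smul, mulVec_sub, mulVec_smul, sub_dotProduct, dotProduct_sub,
    smul_dotProduct, dotProduct_smul, h1 hu hu ha, h1 hv hv hb, h1 hu hv hab,
    h1 hv hu (mul_comm a b ▸ hab), smul_zero, sub_zero]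

theorem tri_form (hA : Aᵀ = -A) (hJ : Aᴴ * lor = -(lor * A)) (h0 : A ≠ 0)
    (hd : ⨆ μ : ℝ, End.eigenspace A.toLin' μ = ⊤) : ∃ (t : ℝ) (u v : Fin 8 → ℂ), 0 < t ∧
      u ⬝ᵥ u = 0 ∧ v ⬝ᵥ v = 0 ∧ u ⬝ᵥ v = 1 ∧ A = (t : ℂ) • (vecMulVec u v - vecMulVec v u) := by
  obtain ⟨t, u, v, ht, hu, hv, e⟩ : ∃ (t : ℝ) (u v : Fin 8 → ℂ), 0 < t ∧ A *ᵥ u = (t : ℂ) • u ∧
      A *ᵥ v = ((-t : ℝ) : ℂ) • v ∧ u ⬝ᵥ v = 1 := by
    obtain ⟨a, x, hx, x0⟩ : ∃ a : ℝ, ∃ x ∈ End.eigenspace A.toLin' a, A.toLin' x ≠ 0 := by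
      by_contra! h
      exact h0 (toLin'.map_eq_zero_iff.1 (LinearMap.ker_eq_top.1 (top_le_iff.1
        (hd.ge.trans (iSup_le h)))))
    have h1 : A *ᵥ x = _ := End.mem_eigenspace_iff.1 hx
    obtain ⟨a0, x0⟩ := smul_ne_zero_iff.1 (h1 ▸ x0 : (a : ℂ) • x ≠ 0)
    obtain ⟨b, y, hy, h2⟩ := tri_ex hd x0
    have h3 : A *ᵥ y = _ := End.mem_eigenspace_iff.1 hy
    obtain rfl : b = -a := by
      exact_mod_cast eq_neg_of_add_eq_zero_right ((tri_pair hA h1 h3).resolve_right h2)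
    have h4 : A *ᵥ (x ⬝ᵥ y)⁻¹ • y = ((-a : ℝ) : ℂ) • (x ⬝ᵥ y)⁻¹ • y := by
      rw [mulVec_smul, h3, smul_comm]
    have h5 : x ⬝ᵥ (x ⬝ᵥ y)⁻¹ • y = 1 := by rw [dotProduct_smul, smul_eq_mul, inv_mul_cancel₀ h2]
    rcases lt_or_gt_of_ne (show a ≠ 0 by exact_mod_cast a0) with h | h
    · exact ⟨-a, _, x, neg_pos.2 h, h4, by rwa [neg_neg], (dotProduct_comm _ _).trans h5⟩
    · exact ⟨a, x, _, h, h1, h4, h5⟩
  have k : ∀ {a b : ℝ} {x y : Fin 8 → ℂ}, A *ᵥ x = (a : ℂ) • x → A *ᵥ y = (b : ℂ) • y → a + b ≠ 0 →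
      x ⬝ᵥ y = 0 := fun hx hy h => (tri_pair hA hx hy).resolve_left (by exact_mod_cast h)
  have h1 := k hu hu (by positivity)
  have h2 := k hv hv (by linarith)
  refine ⟨t, u, v, ht, h1, h2, e, toLin'.injective (LinearMap.eqLocus_eq_top.1 (top_le_iff.1
    (hd.ge.trans (iSup_le fun a x hx => ?_))))⟩
  have h3 : A *ᵥ x = _ := End.mem_eigenspace_iff.1 hx
  change A *ᵥ x = _ *ᵥ x
  rw [smul_mulVec, sub_mulVec, vecMulVec_mulVec, vecMulVec_mulVec, op_smul_eq_smul, op_smul_eq_smul]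
  rcases lt_trichotomy a 0 with h | rfl | h
  · obtain ⟨c, rfl⟩ := tri_line hJ hv h3 (fun z => by simp [z] at e) (by nlinarith)
    simp [mulVec_smul, hv, h2, e, smul_comm c]
  · simp [h3, k hu h3 (by linarith), k hv h3 (by linarith)]
  · obtain ⟨c, rfl⟩ := tri_line hJ hu h3 (fun z => by simp [z] at e) (by positivity)
    simp [mulVec_smul, hu, h1, dotProduct_comm v u, e, smul_comm c]

theorem tri_one {t : ℂ} (ht : t ≠ 0) (hu : u ⬝ᵥ u = 0) (hv : v ⬝ᵥ v = 0) (e : u ⬝ᵥ v = 1) :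
    (t • (vecMulVec u v - vecMulVec v u)).charpoly.rootMultiplicity t = 1 := by
  have h1 : t • (vecMulVec u v - vecMulVec v u) = (of ![t • u, -t • v])ᵀ * of ![v, u] := by
    ext i j
    simp [mul_apply, vecMulVec_apply]
    ring
  have h2 : of ![v, u] * (of ![t • u, -t • v])ᵀ = diagonal ![t, -t] := by
    ext i j
    change ![v, u] i ⬝ᵥ ![t • u, -t • v] j = _
    fin_cases i <;> fin_cases j <;> simp [hu, hv, e, dotProduct_comm v u]
  have h3 : t ≠ -t := fun h => ht (by linear_combination h / 2)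
  rw [h1, charpoly_mul_comm_of_le _ _ (by simp), h2, charpoly_diagonal, Fin.prod_univ_two,
    rootMultiplicity_mul (by simp [X_sub_C_ne_zero, X_add_C_ne_zero]),
    rootMultiplicity_mul (by simp [X_sub_C_ne_zero, X_add_C_ne_zero]),
    rootMultiplicity_eq_zero (by simp [ht]), rootMultiplicity_X_sub_C, rootMultiplicity_X_sub_C]
  simp [h3]

theorem tri_zero {t : ℂ} (ht : t ≠ 0) (h : A ^ 2 = (4⁻¹ : ℂ) • 1) :
    (t • A).charpoly.rootMultiplicity t = 0 := by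
  refine rootMultiplicity_eq_zero fun e => ?_
  have h1 : (scalar (Fin 8) t - t • A) * (1 + A) = (3 / 4 * t) • 1 := by
    rw [scalar_apply, ← smul_one_eq_diagonal, ← smul_sub, smul_mul_assoc, sub_mul, mul_add, mul_add,
      ← _root_.sq A, h]
    simp only [one_mul, mul_one]
    module
  have h2 := congrArg det h1
  rw [det_mul, ← eval_charpoly, e, zero_mul, det_smul, det_one, mul_one] at h2
  exact pow_ne_zero _ (mul_ne_zero (by norm_num) ht) h2.symm

theorem Clf.inj [LieAlgebra.IsSimple ℂ g] (h : Clf p q)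
    (lie : ∀ X Y, ν ⁅X, Y⁆ = ν X * ν Y - ν Y * ν X) (rng : ∀ A, A ∈ LinearMap.range ν ↔ Aᵀ = -A) :
    Function.Injective (spin p q ∘ₗ ν) := by
  let I : LieIdeal ℂ g := ⟨LinearMap.ker (spin p q ∘ₗ ν), fun {X Y} hY => by
    have h1 : spin p q (ν Y) = 0 := hY
    change spin p q (ν ⁅X, Y⁆) = 0
    rw [lie, h.lie ((rng _).1 ⟨X, rfl⟩), h1, mul_zero, zero_mul, sub_zero]⟩
  refine LinearMap.ker_eq_bot.1 (congrArg LieSubmodule.toSubmodule
    ((LieAlgebra.IsSimple.eq_bot_or_eq_top I).resolve_right fun e => ?_))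
  let u : Fin 8 → ℂ := ![1, Complex.I, 0, 0, 0, 0, 0, 0]
  let v : Fin 8 → ℂ := ![2⁻¹, -2⁻¹ * Complex.I, 0, 0, 0, 0, 0, 0]
  obtain ⟨Y, hY⟩ := (rng (vecMulVec u v - vecMulVec v u)).2 (by simp [transpose_vecMulVec])
  have h1 : spin p q (ν Y) = 0 := show Y ∈ I from e ▸ LieSubmodule.mem_top Y
  have h2 := h.sq (u := u) (v := v) (by simp [u]) (by simp [v, mul_mul_mul_comm _ Complex.I])
    (by simp [u, v, mul_left_comm Complex.I]; norm_num)
  rw [← hY, h1] at h2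
  simpa using congrFun (congrFun h2 0) 0

/-- The weight condition for trialitarian lattices in a factor of type `SO(7,1)`: `ν` identifies
`V` with `so(8, ℂ)` and maps `h` into `so(7,1)`; the index `d` is arbitrary. -/
theorem wts_tri {V : Type} [LieRing V] [LieAlgebra ℂ V] [Module.Finite ℂ V]
    [LieAlgebra.IsSimple ℂ V] {G : Type} [Group G]
    (h : Submodule ℝ V) (π : G →* End ℂ V) (ν : V →ₗ[ℂ] M8) (hc : Clf p q)
    (lie : ∀ X Y, ν ⁅X, Y⁆ = ν X * ν Y - ν Y * ν X)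
    (inj : Function.Injective ν) (rng : ∀ A, A ∈ LinearMap.range ν ↔ Aᵀ = -A)
    (hJ : ∀ X ∈ h, (ν X)ᴴ * lor = -(lor * ν X))
    (hG : Subgroup.closure {a | ∃ X : V,
      Ad.mat (π a) = NormedSpace.exp (Ad.mat (LieAlgebra.ad ℂ V X))} = ⊤) (d : ℕ) :
    Wts h π ![ν, spin p q ∘ₗ ν, spin q p ∘ₗ ν] d := by
  have h0 : ∀ j X Y, ![ν, spin p q ∘ₗ ν, spin q p ∘ₗ ν] j ⁅X, Y⁆ =
      ![ν, spin p q ∘ₗ ν, spin q p ∘ₗ ν] j X * ![ν, spin p q ∘ₗ ν, spin q p ∘ₗ ν] j Y -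
      ![ν, spin p q ∘ₗ ν, spin q p ∘ₗ ν] j Y * ![ν, spin p q ∘ₗ ν, spin q p ∘ₗ ν] j X := by
    intro j X Y
    fin_cases j
    · exact lie X Y
    · exact (congrArg _ (lie X Y)).trans (hc.lie ((rng _).1 ⟨X, rfl⟩) _)
    · exact (congrArg _ (lie X Y)).trans (hc.symm.lie ((rng _).1 ⟨X, rfl⟩) _)
  refine ⟨h0, fun j => ?_, stab_of_exp h0 hG, fun X hX X0 hd => ?_⟩
  · fin_cases j
    exacts [inj, hc.inj lie rng, hc.symm.inj lie rng]
  obtain ⟨t, u, v, ht, hu, hv, e, h1⟩ := tri_form ((rng _).1 ⟨X, rfl⟩) (hJ X hX)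
    ((map_ne_zero_iff _ inj).2 X0) (tri_diag lie rng hd)
  have t0 : (t : ℂ) ≠ 0 := by exact_mod_cast ht.ne'
  refine ⟨t, ht, fun h2 => ?_⟩
  rw [Fin.sum_univ_three] at h2
  change _ ∣ 2 * (rootMultiplicity _ (ν X).charpoly +
    rootMultiplicity _ (spin p q (ν X)).charpoly +
    rootMultiplicity _ (spin q p (ν X)).charpoly) at h2
  rw [h1, tri_one t0 hu hv e, map_smul, map_smul, tri_zero t0 (hc.sq hu hv e),
    tri_zero t0 (hc.symm.sq hu hv e)] at h2
  exact absurd ((dvd_mul_right 3 d).trans h2) (by norm_num)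

end Pool.Agent.Lib.MP_162bbe_gt.Ti
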